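import Pool.Agent.H8.Jellium.Defs

/-!
# Finite unions of balls with disjoint closures have Lipschitz boundary
-/

set_option autoImplicit false

open MeasureTheory Filter Topology Set Metric

namespace Pool.Agent.H8.Jellium

/-- component orthogonal to `e` -/
noncomputable def perp (e u : E3) : E3 := u - (inner ℝ u e : ℝ) • e

lemma perp_add_smul {e : E3} (he : ‖e‖ = 1) (u : E3) (t : ℝ) : perp e (u + t • e) = perp e u := by
  unfold perp
  have h1 : (inner ℝ (u + t • e) e : ℝ) = inner ℝ u e + t := by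
    rw [inner_add_left, inner_smul_left, real_inner_self_eq_norm_sq, he]
    simp
  rw [h1, add_smul]
  abel

lemma norm_sq_eq {e : E3} (he : ‖e‖ = 1) (u : E3) :
    ‖u‖ ^ 2 = (inner ℝ u e : ℝ) ^ 2 + ‖perp e u‖ ^ 2 := by
  have h1 : ‖perp e u‖ ^ 2 = ‖u‖ ^ 2 - (inner ℝ u e : ℝ) ^ 2 := by
    unfold perp
    rw [norm_sub_sq_real, inner_smul_right, norm_smul, he]
    simp only [Real.norm_eq_abs, mul_one, sq_abs]
    ring
  rw [h1]; ring

lemma norm_perp_sub_le {e : E3} (he : ‖e‖ = 1) (u v : E3) :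
    ‖perp e u - perp e v‖ ≤ ‖u - v‖ := by
  have h1 : perp e u - perp e v = perp e (u - v) := by
    unfold perp
    rw [inner_sub_left, sub_smul]
    abel
  rw [h1]
  have h2 := norm_sq_eq he (u - v)
  have h3 : ‖perp e (u - v)‖ ^ 2 ≤ ‖u - v‖ ^ 2 := by nlinarith [sq_nonneg (inner ℝ (u - v) e : ℝ)]
  exact le_of_sq_le_sq h3 (norm_nonneg _)

lemma sqrt_lip {r s t : ℝ} (hr : 0 < r) (hs : 0 ≤ s) (hs' : s ≤ r / 2) (ht : 0 ≤ t)
    (ht' : t ≤ r / 2) : |√(r ^ 2 - s ^ 2) - √(r ^ 2 - t ^ 2)| ≤ |s - t| := by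
  have h1 : r / 2 ≤ √(r ^ 2 - s ^ 2) := by
    apply Real.le_sqrt_of_sq_le; nlinarith
  have h2 : r / 2 ≤ √(r ^ 2 - t ^ 2) := by
    apply Real.le_sqrt_of_sq_le; nlinarith
  have h3 : √(r ^ 2 - s ^ 2) ^ 2 = r ^ 2 - s ^ 2 := Real.sq_sqrt (by nlinarith)
  have h4 : √(r ^ 2 - t ^ 2) ^ 2 = r ^ 2 - t ^ 2 := Real.sq_sqrt (by nlinarith)
  have h5 : (√(r ^ 2 - s ^ 2) - √(r ^ 2 - t ^ 2)) * (√(r ^ 2 - s ^ 2) + √(r ^ 2 - t ^ 2))
      = -((s - t) * (s + t)) := by
    linear_combination h3 - h4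
  have h6 : |√(r ^ 2 - s ^ 2) - √(r ^ 2 - t ^ 2)| * (√(r ^ 2 - s ^ 2) + √(r ^ 2 - t ^ 2))
      = |s - t| * (s + t) := by
    rw [← abs_of_pos (show 0 < √(r ^ 2 - s ^ 2) + √(r ^ 2 - t ^ 2) by linarith), ← abs_mul, h5,
      abs_neg, abs_mul, abs_of_nonneg (show 0 ≤ s + t by linarith)]
  have h7 : |s - t| * (s + t) ≤ |s - t| * (√(r ^ 2 - s ^ 2) + √(r ^ 2 - t ^ 2)) :=
    mul_le_mul_of_nonneg_left (by linarith) (abs_nonneg _)
  rw [← h6] at h7
  exact le_of_mul_le_mul_right h7 (by linarith)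

/-- the graph function of a ball -/
noncomputable def ballGraph (c e : E3) (r : ℝ) (y : E3) : ℝ :=
  inner ℝ c e + √(r ^ 2 - (min ‖perp e (y - c)‖ (r / 2)) ^ 2)

lemma ballGraph_lipschitz {c e : E3} {r : ℝ} (he : ‖e‖ = 1) (hr : 0 < r) :
    LipschitzWith 1 (ballGraph c e r) := by
  apply LipschitzWith.of_dist_le_mul
  intro y z
  rw [NNReal.coe_one, one_mul, Real.dist_eq]
  unfold ballGraph
  rw [add_sub_add_left_eq_sub]
  refine (sqrt_lip hr (le_min (norm_nonneg _) (by linarith)) (min_le_right _ _)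
    (le_min (norm_nonneg _) (by linarith)) (min_le_right _ _)).trans ?_
  refine (abs_min_sub_min_le_max _ _ _ _).trans ?_
  rw [sub_self, abs_zero, max_eq_left (abs_nonneg _)]
  refine (abs_norm_sub_norm_le _ _).trans ?_
  refine (norm_perp_sub_le he _ _).trans ?_
  rw [dist_eq_norm, sub_sub_sub_cancel_right]

lemma ballGraph_invariant {c e : E3} {r : ℝ} (he : ‖e‖ = 1) (y : E3) (t : ℝ) :
    ballGraph c e r (y + t • e) = ballGraph c e r y := by
  unfold ballGraph
  rw [show y + t • e - c = (y - c) + t • e by abel, perp_add_smul he]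

lemma mem_ball_iff_graph {c e : E3} {r : ℝ} (he : ‖e‖ = 1) (hr : 0 < r) {y : E3}
    (hy : ‖y - (c + r • e)‖ < r / 2) :
    y ∈ ball c r ↔ inner ℝ y e < ballGraph c e r y := by
  set u := y - c with hu
  have h1 : y - (c + r • e) = u - r • e := by rw [hu]; abel
  rw [h1] at hy
  have h2 : (inner ℝ (u - r • e) e : ℝ) = inner ℝ u e - r := by
    rw [inner_sub_left, inner_smul_left, real_inner_self_eq_norm_sq, he]
    simp
  have h3 : |(inner ℝ (u - r • e) e : ℝ)| ≤ ‖u - r • e‖ := by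
    have := abs_real_inner_le_norm (u - r • e) e
    rwa [he, mul_one] at this
  rw [h2] at h3
  have hs : 0 < (inner ℝ u e : ℝ) := by
    have := (abs_le.1 h3).1
    linarith
  have h4 : ‖perp e u‖ ≤ r / 2 := by
    have h5 : perp e u = perp e (u - r • e) := by
      have := perp_add_smul he u (-r)
      rw [neg_smul, ← sub_eq_add_neg] at this
      exact this.symm
    rw [h5]
    have h6 := norm_sq_eq he (u - r • e)
    have h7 : ‖perp e (u - r • e)‖ ^ 2 ≤ ‖u - r • e‖ ^ 2 := by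
      nlinarith [sq_nonneg (inner ℝ (u - r • e) e : ℝ)]
    exact (le_of_sq_le_sq h7 (norm_nonneg _)).trans hy.le
  have h5 := norm_sq_eq he u
  have h6 : ballGraph c e r y = inner ℝ c e + √(r ^ 2 - ‖perp e u‖ ^ 2) := by
    unfold ballGraph
    rw [min_eq_left h4]
  have h7 : (inner ℝ y e : ℝ) = inner ℝ c e + inner ℝ u e := by
    rw [hu, inner_sub_left]; ring
  rw [h6, h7, add_lt_add_iff_left, mem_ball, dist_eq_norm, ← hu, Real.lt_sqrt hs.le]
  constructor
  · intro h
    have : ‖u‖ ^ 2 < r ^ 2 := by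
      apply pow_lt_pow_left₀ h (norm_nonneg _) (by norm_num)
    linarith
  · intro h
    have : ‖u‖ ^ 2 < r ^ 2 := by linarith
    exact lt_of_pow_lt_pow_left₀ 2 hr.le this

/-- A finite union of balls with pairwise disjoint closures has Lipschitz boundary. -/
lemma lipschitzBoundary_iUnion_ball {ι : Type} [Finite ι] (c : ι → E3) (r : ι → ℝ)
    (hr : ∀ i, 0 < r i) (hd : ∀ i j, i ≠ j → r i + r j < dist (c i) (c j)) :
    LipschitzBoundary (⋃ i, ball (c i) (r i)) := by
  classical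
  cases nonempty_fintype ι
  intro x hx
  have hopen : IsOpen (⋃ i, ball (c i) (r i)) := isOpen_iUnion fun i => isOpen_ball
  rw [hopen.frontier_eq] at hx
  obtain ⟨hx1, hx2⟩ := hx
  rw [closure_iUnion_of_finite] at hx1
  obtain ⟨i, hi⟩ := mem_iUnion.1 hx1
  have hi1 : dist x (c i) ≤ r i := by
    have := closure_ball_subset_closedBall hi
    exact mem_closedBall.1 this
  have hi2 : r i ≤ dist x (c i) := by
    by_contra hcon
    push Not at hcon
    exact hx2 (mem_iUnion.2 ⟨i, mem_ball.2 hcon⟩)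
  have hi3 : dist x (c i) = r i := le_antisymm hi1 hi2
  have hri := hr i
  -- separation radius
  obtain ⟨δ, hδ0, hδ⟩ : ∃ δ > 0, ∀ j, j ≠ i → δ ≤ dist x (c j) - r j := by
    have hpos : ∀ j, j ≠ i → 0 < dist x (c j) - r j := by
      intro j hj
      have h1 := hd i j (Ne.symm hj)
      have h2 := dist_triangle (c i) x (c j)
      rw [dist_comm (c i) x, hi3] at h2
      linarith
    by_cases hne : (Finset.univ.filter (fun j => j ≠ i)).Nonempty
    · obtain ⟨j0, hj0, hmin⟩ := Finset.exists_min_image (Finset.univ.filter (fun j => j ≠ i))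
        (fun j => dist x (c j) - r j) hne
      refine ⟨dist x (c j0) - r j0, hpos j0 (Finset.mem_filter.1 hj0).2, fun j hj => ?_⟩
      exact hmin j (Finset.mem_filter.2 ⟨Finset.mem_univ _, hj⟩)
    · refine ⟨1, one_pos, fun j hj => ?_⟩
      exact absurd ⟨j, Finset.mem_filter.2 ⟨Finset.mem_univ _, hj⟩⟩ hne
  set e : E3 := (r i)⁻¹ • (x - c i) with he_def
  have he : ‖e‖ = 1 := by
    rw [he_def, norm_smul, ← dist_eq_norm, hi3, Real.norm_eq_abs, abs_of_pos (inv_pos.2 hri)]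
    field_simp
  have hxe : c i + r i • e = x := by
    rw [he_def, smul_smul, mul_inv_cancel₀ hri.ne', one_smul]
    abel
  refine ⟨e, ballGraph (c i) e (r i), 1, min δ (r i / 2), he, lt_min hδ0 (by linarith),
    ballGraph_lipschitz he hri, ballGraph_invariant he, fun y hy => ?_⟩
  rw [mem_ball] at hy
  have hy1 : dist y x < δ := lt_of_lt_of_le hy (min_le_left _ _)
  have hy2 : dist y x < r i / 2 := lt_of_lt_of_le hy (min_le_right _ _)
  rw [← mem_ball_iff_graph he hri (by rw [hxe, ← dist_eq_norm]; exact hy2)]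
  constructor
  · intro h
    obtain ⟨j, hj⟩ := mem_iUnion.1 h
    by_cases hij : j = i
    · rwa [hij] at hj
    · exfalso
      have h1 := hδ j hij
      have h2 := dist_triangle x y (c j)
      rw [dist_comm x y] at h2
      rw [mem_ball] at hj
      linarith
  · intro h
    exact mem_iUnion.2 ⟨i, h⟩

end Pool.Agent.H8.Jellium
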