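import Pool.Agent.H8.Jellium.Potential
import Pool.Agent.H8.Jellium.Balls

/-!
# The domains: a big ball and many tiny balls
-/

set_option autoImplicit false

open MeasureTheory Filter Topology Set Metric

namespace Pool.Agent.H8.Jellium

/-- volume of the unit ball -/
noncomputable def om : ℝ := Real.pi * 4 / 3

lemma om_pos : 0 < om := by unfold om; have := Real.pi_pos; positivity

lemma real_ball (x : E3) {r : ℝ} (hr : 0 ≤ r) : (volume (ball x r)).toReal = r ^ 3 * om := by
  rw [EuclideanSpace.volume_ball_fin_three, ENNReal.toReal_mul, ENNReal.toReal_pow,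
    ENNReal.toReal_ofReal hr]
  have h := ENNReal.toReal_ofReal om_pos.le
  unfold om at h ⊢
  rw [h]

/-- radius of the tiny balls -/
noncomputable def rad (ρ : ℝ) (j M : ℕ) : ℝ := 1 / (16 * j * M * (1 + ρ * om))

/-- radius of the big ball -/
noncomputable def Rad (ρ : ℝ) (j M : ℕ) : ℝ :=
  ((j / ρ - j * M * (rad ρ j M ^ 3 * om)) / om) ^ (1 / 3 : ℝ)

/-- centre of the tiny ball number `m` in cluster `i` -/
noncomputable def tinyCentre (ρ : ℝ) (j M : ℕ) (p : Fin j × Fin M) : E3 :=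
  EuclideanSpace.single 0 (Rad ρ j M + 1 + ((p.1 : ℕ) : ℝ) / j)
    + EuclideanSpace.single 1 (((p.2 : ℕ) : ℝ) / (4 * j * M))

/-- all centres -/
noncomputable def centre (ρ : ℝ) (j M : ℕ) (k : Option (Fin j × Fin M)) : E3 :=
  k.elim 0 (tinyCentre ρ j M)

/-- all radii -/
noncomputable def radius (ρ : ℝ) (j M : ℕ) (k : Option (Fin j × Fin M)) : ℝ :=
  k.elim (Rad ρ j M) (fun _ => rad ρ j M)

/-- the domain -/
noncomputable def dom (ρ : ℝ) (j M : ℕ) : Set E3 :=
  ⋃ k, ball (centre ρ j M k) (radius ρ j M k)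

section

variable {ρ : ℝ} {j M : ℕ} (hρ : 0 < ρ) (hj : 0 < j) (hM : 0 < M)

include hρ hj hM

lemma rad_pos : 0 < rad ρ j M := by
  unfold rad
  have := om_pos
  positivity

lemma jM_rad : (j : ℝ) * M * rad ρ j M = 1 / (16 * (1 + ρ * om)) := by
  unfold rad
  have := om_pos
  have hj' : (0 : ℝ) < j := by exact_mod_cast hj
  have hM' : (0 : ℝ) < M := by exact_mod_cast hM
  field_simp

lemma rad_le : rad ρ j M ≤ 1 / 16 := by
  unfold rad
  have := om_pos
  have hj' : (1 : ℝ) ≤ j := by exact_mod_cast hj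
  have hM' : (1 : ℝ) ≤ M := by exact_mod_cast hM
  apply one_div_le_one_div_of_le (by norm_num)
  have h1 : (1 : ℝ) ≤ 1 + ρ * om := by nlinarith [mul_pos hρ this]
  calc (16 : ℝ) = 16 * 1 * 1 * 1 := by ring
    _ ≤ 16 * j * M * (1 + ρ * om) := by gcongr

lemma rad_le' : rad ρ j M ≤ 1 / (16 * j * M) := by
  unfold rad
  have := om_pos
  have hj' : (0 : ℝ) < j := by exact_mod_cast hj
  have hM' : (0 : ℝ) < M := by exact_mod_cast hM
  apply one_div_le_one_div_of_le (by positivity)
  have h1 : (1 : ℝ) ≤ 1 + ρ * om := by nlinarith [mul_pos hρ this]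
  calc (16 : ℝ) * j * M = 16 * j * M * 1 := by ring
    _ ≤ 16 * j * M * (1 + ρ * om) := by gcongr

lemma small_volume : (j : ℝ) * M * (rad ρ j M ^ 3 * om) ≤ 1 / (16 * ρ) := by
  have h1 := jM_rad hρ hj hM
  have h2 := rad_pos hρ hj hM
  have h3 := rad_le hρ hj hM
  have h4 := om_pos
  have h5 : (j : ℝ) * M * (rad ρ j M ^ 3 * om) = (1 / (16 * (1 + ρ * om))) * (rad ρ j M ^ 2 * om) := by
    rw [← h1]; ring
  have h6 : rad ρ j M ^ 2 ≤ 1 := by nlinarith
  rw [h5]
  calc (1 / (16 * (1 + ρ * om))) * (rad ρ j M ^ 2 * om)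
      ≤ (1 / (16 * (1 + ρ * om))) * (1 * om) := by gcongr
    _ ≤ 1 / (16 * ρ) := by
        rw [one_mul, div_mul_eq_mul_div, one_mul, div_le_div_iff₀ (by positivity) (by positivity)]
        nlinarith [mul_pos hρ h4]

lemma small_volume_nonneg : 0 ≤ (j : ℝ) * M * (rad ρ j M ^ 3 * om) := by
  have h2 := rad_pos hρ hj hM
  have h4 := om_pos
  positivity

lemma big_volume_ge : (j : ℝ) / (2 * ρ) ≤ j / ρ - j * M * (rad ρ j M ^ 3 * om) := by
  have h1 := small_volume hρ hj hM
  have hj' : (1 : ℝ) ≤ j := by exact_mod_cast hj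
  have h2 : (j : ℝ) / ρ - j / (2 * ρ) = j / (2 * ρ) := by field_simp; ring
  have h3 : 1 / (16 * ρ) ≤ (j : ℝ) / (2 * ρ) := by
    rw [div_le_div_iff₀ (by positivity) (by positivity)]
    nlinarith
  linarith

lemma Rad_ge : ((j : ℝ) / (2 * ρ * om)) ^ (1 / 3 : ℝ) ≤ Rad ρ j M := by
  unfold Rad
  have h4 := om_pos
  apply Real.rpow_le_rpow (by positivity) _ (by norm_num)
  rw [le_div_iff₀ h4]
  have h1 := big_volume_ge hρ hj hM
  calc (j : ℝ) / (2 * ρ * om) * om = j / (2 * ρ) := by field_simp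
    _ ≤ _ := h1

lemma Rad_pos : 0 < Rad ρ j M := by
  refine lt_of_lt_of_le ?_ (Rad_ge hρ hj hM)
  have h4 := om_pos
  have hj' : (0 : ℝ) < j := by exact_mod_cast hj
  positivity

lemma Rad_cube : Rad ρ j M ^ 3 * om = j / ρ - j * M * (rad ρ j M ^ 3 * om) := by
  unfold Rad
  have h4 := om_pos
  have h1 := big_volume_ge hρ hj hM
  have hj' : (0 : ℝ) < j := by exact_mod_cast hj
  have h5 : 0 ≤ (j : ℝ) / (2 * ρ) := by positivity
  have h6 : 0 ≤ (j / ρ - j * M * (rad ρ j M ^ 3 * om)) / om := div_nonneg (h5.trans h1) h4.le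
  rw [← Real.rpow_natCast, ← Real.rpow_mul h6]
  norm_num
  field_simp

lemma radius_pos (k : Option (Fin j × Fin M)) : 0 < radius ρ j M k := by
  cases k with
  | none => exact Rad_pos hρ hj hM
  | some p => exact rad_pos hρ hj hM

omit hρ hj hM in
lemma tinyCentre_zero (p : Fin j × Fin M) :
    (tinyCentre ρ j M p) 0 = Rad ρ j M + 1 + ((p.1 : ℕ) : ℝ) / j := by
  simp [tinyCentre]

omit hρ hj hM in
lemma tinyCentre_one (p : Fin j × Fin M) :
    (tinyCentre ρ j M p) 1 = ((p.2 : ℕ) : ℝ) / (4 * j * M) := by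
  simp [tinyCentre]

omit hρ hj hM in
lemma coord_le_norm (x : E3) (i : Fin 3) : |x i| ≤ ‖x‖ := by
  have := PiLp.norm_apply_le x i
  rwa [Real.norm_eq_abs] at this

omit hρ hM in
lemma cluster_dist {p p' : Fin j × Fin M} (h : p.1 ≠ p'.1) :
    1 / (j : ℝ) ≤ dist (tinyCentre ρ j M p) (tinyCentre ρ j M p') := by
  have hj' : (0 : ℝ) < j := by exact_mod_cast hj
  rw [dist_eq_norm]
  refine le_trans ?_ (coord_le_norm _ 0)
  have h1 : (tinyCentre ρ j M p - tinyCentre ρ j M p') 0
      = (((p.1 : ℕ) : ℝ) - ((p'.1 : ℕ) : ℝ)) / j := by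
    rw [PiLp.sub_apply, tinyCentre_zero, tinyCentre_zero]
    ring
  rw [h1, abs_div, abs_of_pos hj']
  have h2 : (1 : ℝ) ≤ |((p.1 : ℕ) : ℝ) - ((p'.1 : ℕ) : ℝ)| := by
    have h3 : ((p.1 : ℕ) : ℤ) - ((p'.1 : ℕ) : ℤ) ≠ 0 := by
      intro h0
      apply h
      apply Fin.ext
      omega
    have h4 := Int.one_le_abs h3
    exact_mod_cast h4
  gcongr

omit hρ in
lemma inner_dist {p p' : Fin j × Fin M} (h : p.2 ≠ p'.2) :
    1 / (4 * (j : ℝ) * M) ≤ dist (tinyCentre ρ j M p) (tinyCentre ρ j M p') := by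
  have hj' : (0 : ℝ) < j := by exact_mod_cast hj
  have hM' : (0 : ℝ) < M := by exact_mod_cast hM
  rw [dist_eq_norm]
  refine le_trans ?_ (coord_le_norm _ 1)
  have h1 : (tinyCentre ρ j M p - tinyCentre ρ j M p') 1
      = (((p.2 : ℕ) : ℝ) - ((p'.2 : ℕ) : ℝ)) / (4 * j * M) := by
    rw [PiLp.sub_apply, tinyCentre_one, tinyCentre_one]
    ring
  rw [h1, abs_div, abs_of_pos (by positivity : (0 : ℝ) < 4 * j * M)]
  have h2 : (1 : ℝ) ≤ |((p.2 : ℕ) : ℝ) - ((p'.2 : ℕ) : ℝ)| := by
    have h3 : ((p.2 : ℕ) : ℤ) - ((p'.2 : ℕ) : ℤ) ≠ 0 := by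
      intro h0
      apply h
      apply Fin.ext
      omega
    have h4 := Int.one_le_abs h3
    exact_mod_cast h4
  gcongr

lemma two_rad_lt : rad ρ j M + rad ρ j M < 1 / (4 * (j : ℝ) * M) := by
  have h := rad_le' hρ hj hM
  have hj' : (0 : ℝ) < j := by exact_mod_cast hj
  have hM' : (0 : ℝ) < M := by exact_mod_cast hM
  have h1 : 1 / (16 * (j : ℝ) * M) + 1 / (16 * (j : ℝ) * M) < 1 / (4 * (j : ℝ) * M) := by
    have h2 : 1 / (16 * (j : ℝ) * M) + 1 / (16 * (j : ℝ) * M) = 1 / (8 * (j : ℝ) * M) := by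
      field_simp; norm_num
    rw [h2]
    apply one_div_lt_one_div_of_lt (by positivity)
    nlinarith [mul_pos hj' hM']
  linarith

lemma centre_dist (k k' : Option (Fin j × Fin M)) (h : k ≠ k') :
    radius ρ j M k + radius ρ j M k' < dist (centre ρ j M k) (centre ρ j M k') := by
  have hj' : (0 : ℝ) < j := by exact_mod_cast hj
  have hM' : (1 : ℝ) ≤ M := by exact_mod_cast hM
  have hr := rad_le hρ hj hM
  have hbig : ∀ p : Fin j × Fin M, Rad ρ j M + rad ρ j M < dist (tinyCentre ρ j M p) 0 := by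
    intro p
    rw [dist_zero_right]
    refine lt_of_lt_of_le ?_ (coord_le_norm _ 0)
    rw [tinyCentre_zero]
    refine lt_of_lt_of_le ?_ (le_abs_self _)
    have : (0 : ℝ) ≤ ((p.1 : ℕ) : ℝ) / j := by positivity
    linarith
  cases k with
  | none =>
    cases k' with
    | none => exact absurd rfl h
    | some p =>
      change Rad ρ j M + rad ρ j M < dist 0 (tinyCentre ρ j M p)
      rw [dist_comm]
      exact hbig p
  | some p =>
    cases k' with
    | none =>
      change rad ρ j M + Rad ρ j M < dist (tinyCentre ρ j M p) 0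
      rw [add_comm]
      exact hbig p
    | some p' =>
      change rad ρ j M + rad ρ j M < dist (tinyCentre ρ j M p) (tinyCentre ρ j M p')
      have h2 := two_rad_lt hρ hj hM
      by_cases h1 : p.2 = p'.2
      · have h3 : p.1 ≠ p'.1 := by
          intro h3
          exact h (by rw [Prod.ext h3 h1])
        refine h2.trans_le (le_trans ?_ (cluster_dist hj h3))
        apply one_div_le_one_div_of_le hj'
        nlinarith
      · exact h2.trans_le (inner_dist hj hM h1)

lemma ball_disjoint {k k' : Option (Fin j × Fin M)} (h : k ≠ k') :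
    Disjoint (ball (centre ρ j M k) (radius ρ j M k)) (ball (centre ρ j M k') (radius ρ j M k')) :=
  ball_disjoint_ball (centre_dist hρ hj hM k k' h).le

omit hρ hj hM in
lemma isOpen_dom : IsOpen (dom ρ j M) := isOpen_iUnion fun _ => isOpen_ball

omit hρ hj hM in
lemma isBounded_dom : Bornology.IsBounded (dom ρ j M) :=
  (Bornology.isBounded_iUnion).2 fun _ => isBounded_ball

lemma dom_lipschitz : LipschitzBoundary (dom ρ j M) :=
  lipschitzBoundary_iUnion_ball _ _ (radius_pos hρ hj hM) (centre_dist hρ hj hM)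

lemma dom_volume : (volume (dom ρ j M)).toReal = j / ρ := by
  unfold dom
  rw [measure_iUnion (fun k k' h => ball_disjoint hρ hj hM h) (fun k => measurableSet_ball),
    tsum_fintype, ENNReal.toReal_sum (fun k _ => measure_ball_lt_top.ne), Fintype.sum_option]
  change (volume (ball (0 : E3) (Rad ρ j M))).toReal
    + ∑ p, (volume (ball (tinyCentre ρ j M p) (rad ρ j M))).toReal = j / ρ
  rw [real_ball _ (Rad_pos hρ hj hM).le, Rad_cube hρ hj hM]
  simp only [real_ball _ (rad_pos hρ hj hM).le]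
  simp only [Finset.sum_const, Finset.card_univ, Fintype.card_prod, Fintype.card_fin, nsmul_eq_mul,
    Nat.cast_mul]
  ring

lemma tiny_norm_le (p : Fin j × Fin M) : ‖tinyCentre ρ j M p‖ ≤ Rad ρ j M + 2 + 1 / 4 := by
  unfold tinyCentre
  have hj' : (0 : ℝ) < j := by exact_mod_cast hj
  have hM' : (0 : ℝ) < M := by exact_mod_cast hM
  have hj1 : (1 : ℝ) ≤ j := by exact_mod_cast hj
  have hR := Rad_pos hρ hj hM
  refine (norm_add_le _ _).trans ?_
  rw [PiLp.norm_single, PiLp.norm_single, Real.norm_eq_abs, Real.norm_eq_abs,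
    abs_of_nonneg (by positivity), abs_of_nonneg (by positivity)]
  have h1 : ((p.1 : ℕ) : ℝ) / j ≤ 1 := by
    rw [div_le_one hj']
    exact_mod_cast p.1.2.le
  have h2 : ((p.2 : ℕ) : ℝ) / (4 * j * M) ≤ 1 / 4 := by
    have h3 : ((p.2 : ℕ) : ℝ) ≤ M := by exact_mod_cast p.2.2.le
    rw [div_le_div_iff₀ (by positivity) (by norm_num)]
    nlinarith
  linarith

lemma dom_sub_ball : dom ρ j M ⊆ ball 0 (Rad ρ j M + 3) := by
  have hr := rad_le hρ hj hM
  apply iUnion_subset
  intro k
  cases k with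
  | none =>
    change ball (0 : E3) (Rad ρ j M) ⊆ _
    exact ball_subset_ball (by linarith)
  | some p =>
    change ball (tinyCentre ρ j M p) (rad ρ j M) ⊆ _
    apply ball_subset_ball'
    rw [dist_zero_right]
    have := tiny_norm_le hρ hj hM p
    linarith

/-- the tiny balls -/
lemma tiny_union_volume :
    (volume (⋃ p, ball (tinyCentre ρ j M p) (rad ρ j M))).toReal ≤ 1 / (16 * ρ) := by
  have h1 : volume (⋃ p, ball (tinyCentre ρ j M p) (rad ρ j M))
      ≤ ∑ p, volume (ball (tinyCentre ρ j M p) (rad ρ j M)) := by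
    have := measure_iUnion_le (μ := (volume : Measure E3))
      (fun p => ball (tinyCentre ρ j M p) (rad ρ j M))
    rwa [tsum_fintype] at this
  have h2 : (∑ p, volume (ball (tinyCentre ρ j M p) (rad ρ j M))) ≠ ⊤ :=
    (ENNReal.sum_lt_top.2 fun p _ => measure_ball_lt_top).ne
  refine (ENNReal.toReal_mono h2 h1).trans ?_
  rw [ENNReal.toReal_sum (fun k _ => measure_ball_lt_top.ne)]
  simp only [real_ball _ (rad_pos hρ hj hM).le]
  simp only [Finset.sum_const, Finset.card_univ, Fintype.card_prod, Fintype.card_fin, nsmul_eq_mul,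
    Nat.cast_mul]
  exact small_volume hρ hj hM

lemma layer_volume {h : ℝ} (hh : 0 < h) :
    (volume {x ∈ dom ρ j M | ∃ y ∈ frontier (dom ρ j M), dist x y ≤ h}).toReal
      ≤ 1 / (16 * ρ) + 3 * Rad ρ j M ^ 2 * h * om := by
  set T := ⋃ p, ball (tinyCentre ρ j M p) (rad ρ j M) with hT
  set R := Rad ρ j M with hR
  have hRpos : 0 < R := Rad_pos hρ hj hM
  set A := ball (0 : E3) R \ ball (0 : E3) (R - h) with hA
  have hsub : {x ∈ dom ρ j M | ∃ y ∈ frontier (dom ρ j M), dist x y ≤ h} ⊆ T ∪ A := by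
    rintro x ⟨hx, y, hy, hxy⟩
    obtain ⟨k, hk⟩ := mem_iUnion.1 hx
    cases k with
    | some p => exact Or.inl (mem_iUnion.2 ⟨p, hk⟩)
    | none =>
      right
      change x ∈ ball (0 : E3) R at hk
      refine ⟨hk, fun hx' => ?_⟩
      have hy1 : y ∉ dom ρ j M := by
        rw [isOpen_dom.frontier_eq] at hy
        exact hy.2
      have hy2 : y ∉ ball (0 : E3) R := fun h' => hy1 (mem_iUnion.2 ⟨none, h'⟩)
      rw [mem_ball, not_lt] at hy2
      rw [mem_ball] at hx'
      have h1 := dist_triangle y x 0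
      rw [dist_comm y x] at h1
      linarith
  have hTfin : volume T ≠ ⊤ := by
    have : Bornology.IsBounded T := (Bornology.isBounded_iUnion).2 fun _ => isBounded_ball
    exact this.measure_lt_top.ne
  have hAfin : volume A ≠ ⊤ := ((measure_mono sdiff_subset).trans_lt measure_ball_lt_top).ne
  have h1 : (volume {x ∈ dom ρ j M | ∃ y ∈ frontier (dom ρ j M), dist x y ≤ h}).toReal
      ≤ (volume T).toReal + (volume A).toReal := by
    rw [← ENNReal.toReal_add hTfin hAfin]
    apply ENNReal.toReal_mono (ENNReal.add_ne_top.2 ⟨hTfin, hAfin⟩)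
    exact (measure_mono hsub).trans (measure_union_le _ _)
  have h2 := tiny_union_volume hρ hj hM
  have h3 : (volume A).toReal ≤ 3 * R ^ 2 * h * om := by
    have hom := om_pos
    rcases le_or_gt h R with hhR | hhR
    · have h4 : (volume A).toReal = (volume (ball (0 : E3) R)).toReal
          - (volume (ball (0 : E3) (R - h))).toReal := by
        have h5 : ball (0 : E3) (R - h) ⊆ ball (0 : E3) R := ball_subset_ball (by linarith)
        exact measureReal_sdiff h5 measurableSet_ball measure_ball_lt_top.ne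
      rw [h4, real_ball _ hRpos.le, real_ball _ (by linarith), ← sub_mul]
      apply mul_le_mul_of_nonneg_right _ hom.le
      nlinarith [mul_nonneg hh.le (mul_nonneg hh.le (show 0 ≤ 3 * R - h by linarith))]
    · have h4 : (volume A).toReal ≤ (volume (ball (0 : E3) R)).toReal :=
        ENNReal.toReal_mono measure_ball_lt_top.ne (measure_mono sdiff_subset)
      rw [real_ball _ hRpos.le] at h4
      refine h4.trans ?_
      apply mul_le_mul_of_nonneg_right _ hom.le
      nlinarith [mul_pos (mul_pos hRpos hRpos) hRpos, mul_pos (mul_pos hRpos hRpos) hh,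
        mul_pos (mul_pos hRpos hRpos) (sub_pos.2 hhR)]
  linarith

/-- the rooms -/
noncomputable def room (ρ : ℝ) (j M : ℕ) (m : Fin j → Fin M) (i : Fin j) : Set E3 :=
  ball (centre ρ j M (some (i, m i))) (radius ρ j M (some (i, m i)))

lemma rooms_dom : Rooms (dom ρ j M) (room ρ j M) where
  sub m i := subset_iUnion (fun k => ball (centre ρ j M k) (radius ρ j M k)) (some (i, m i))
  isOpen m i := isOpen_ball
  compl m i := by
    have : dom ρ j M \ room ρ j M m i
        = ⋃ k : {k // k ≠ some (i, m i)}, ball (centre ρ j M k) (radius ρ j M k) := by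
      ext x
      simp only [Set.mem_sdiff, dom, mem_iUnion, room]
      constructor
      · rintro ⟨⟨k, hk⟩, h2⟩
        refine ⟨⟨k, ?_⟩, hk⟩
        rintro rfl
        exact h2 hk
      · rintro ⟨⟨k, hk⟩, h2⟩
        exact ⟨⟨k, h2⟩, fun h3 => Set.disjoint_left.1 (ball_disjoint hρ hj hM hk) h2 h3⟩
    rw [this]
    exact isOpen_iUnion fun _ => isOpen_ball
  nonempty m i := ⟨_, mem_ball_self (radius_pos hρ hj hM _)⟩
  disj m i m' i' h := by
    apply ball_disjoint hρ hj hM
    intro h'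
    rw [Option.some_inj, Prod.mk.injEq] at h'
    exact h h'.1
  sep m m' h := by
    obtain ⟨i, hi⟩ : ∃ i, m i ≠ m' i := by
      by_contra hcon
      push Not at hcon
      exact h (funext hcon)
    refine ⟨i, ?_⟩
    apply ball_disjoint hρ hj hM
    intro h'
    rw [Option.some_inj, Prod.mk.injEq] at h'
    exact hi h'.2

lemma piece_separated {m : Fin j → Fin M} {σ : Equiv.Perm (Fin j)} {X : Conf j}
    (hX : X ∈ piece (room ρ j M) m σ) : ∀ k k', k ≠ k' → 1 / (2 * (j : ℝ)) ≤ ‖X k - X k'‖ := by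
  intro k k' hk
  have hj' : (0 : ℝ) < j := by exact_mod_cast hj
  have hM' : (1 : ℝ) ≤ M := by exact_mod_cast hM
  have h1 := hX (σ.symm k)
  have h2 := hX (σ.symm k')
  rw [Equiv.apply_symm_apply] at h1 h2
  have hne : σ.symm k ≠ σ.symm k' := fun h => hk (σ.symm.injective h)
  have h3 : 1 / (j : ℝ) ≤ dist (tinyCentre ρ j M (σ.symm k, m (σ.symm k)))
      (tinyCentre ρ j M (σ.symm k', m (σ.symm k'))) := cluster_dist hj hne
  change X k ∈ ball (tinyCentre ρ j M (σ.symm k, m (σ.symm k))) (rad ρ j M) at h1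
  change X k' ∈ ball (tinyCentre ρ j M (σ.symm k', m (σ.symm k'))) (rad ρ j M) at h2
  rw [mem_ball] at h1 h2
  have h4 := two_rad_lt hρ hj hM
  have h5 : 1 / (4 * (j : ℝ) * M) ≤ 1 / (4 * j) := by
    apply one_div_le_one_div_of_le (by positivity)
    nlinarith
  have h6 : dist (tinyCentre ρ j M (σ.symm k, m (σ.symm k)))
      (tinyCentre ρ j M (σ.symm k', m (σ.symm k'))) ≤ dist (X k) (tinyCentre ρ j M (σ.symm k, m (σ.symm k)))
      + dist (X k) (X k') + dist (X k') (tinyCentre ρ j M (σ.symm k', m (σ.symm k'))) := by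
    have := dist_triangle4 (tinyCentre ρ j M (σ.symm k, m (σ.symm k))) (X k) (X k')
      (tinyCentre ρ j M (σ.symm k', m (σ.symm k')))
    rwa [dist_comm (tinyCentre ρ j M (σ.symm k, m (σ.symm k))) (X k)] at this
  have h7 : 1 / (j : ℝ) - 1 / (4 * j) = 3 / 4 * (1 / j) := by field_simp; norm_num
  have h8 : 1 / (2 * (j : ℝ)) = 1 / 2 * (1 / j) := by field_simp
  have h9 : 0 < 1 / (j : ℝ) := by positivity
  rw [dist_eq_norm (X k) (X k')] at h6
  rw [h8]
  linarith

end

end Pool.Agent.H8.Jellium
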