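import Mathlib

/-!
# Quantum jellium with Neumann boundary conditions: definitions
-/

set_option autoImplicit false

open MeasureTheory Filter Topology
open scoped ContDiff

namespace Pool.Agent.H8.Jellium

/-- Physical space `ℝ³`. -/
abbrev E3 : Type := EuclideanSpace ℝ (Fin 3)

/-- Configurations of `N` particles. -/
abbrev Conf (N : ℕ) : Type := Fin N → E3

/-- The volume of a domain, as a real number. -/
noncomputable abbrev vol (Λ : Set E3) : ℝ := ((volume : Measure E3) Λ).toReal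

/-- Lebesgue measure on `Λ`. -/
noncomputable abbrev lebesgue (Λ : Set E3) : Measure E3 := (volume : Measure E3).restrict Λ

/-- `Λ^N` -/
def box (Λ : Set E3) (N : ℕ) : Set (Conf N) := {X | ∀ i, X i ∈ Λ}

/-- Lebesgue measure on `Λ^N`. -/
noncomputable abbrev lebesgueBox (Λ : Set E3) (N : ℕ) : Measure (Conf N) :=
  (volume : Measure (Conf N)).restrict (box Λ N)

/-- `φ(x) = ∫_Λ |x-y|⁻¹ dy` -/
noncomputable def phi (Λ : Set E3) (x : E3) : ℝ := ∫ y, ‖x - y‖⁻¹ ∂(lebesgue Λ)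

/-- The jellium potential energy `U(X)`. -/
noncomputable def potential (ρ : ℝ) (Λ : Set E3) (N : ℕ) (X : Conf N) : ℝ :=
  (∑ i, ∑ j ∈ Finset.univ.filter (fun j => i < j), ‖X i - X j‖⁻¹)
    - ρ * ∑ i, phi Λ (X i) + 1 / 2 * ρ ^ 2 * ∫ x, phi Λ x ∂(lebesgue Λ)

/-- The Hilbert space `L²(Λ^N)`. -/
abbrev L2 (Λ : Set E3) (N : ℕ) : Type := Lp ℂ 2 (lebesgueBox Λ N)

/-- The values of a wave function (defined up to a null set). -/
noncomputable abbrev val {Λ : Set E3} {N : ℕ} (ψ : L2 Λ N) : Conf N → ℂ := ψ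

/-- Linear subspaces of `L²(Λ^N)`. -/
abbrev Subspace (Λ : Set E3) (N : ℕ) : Type := Submodule ℂ (L2 Λ N)

/-- The dimension of a subspace. -/
noncomputable abbrev dimension {Λ : Set E3} {N : ℕ} (V : Subspace Λ N) : ℕ := Module.finrank ℂ V

/-- The character of the statistics: `sign σ` for fermions, `1` for bosons. -/
noncomputable def statChar {N : ℕ} (fermi : Bool) (σ : Equiv.Perm (Fin N)) : ℂ :=
  if fermi then ((Equiv.Perm.sign σ : ℤ) : ℂ) else 1

/-- Antisymmetric (`fermi = true`) or symmetric (`fermi = false`) wave functions. -/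
def HasStatistics {Λ : Set E3} {N : ℕ} (fermi : Bool) (ψ : L2 Λ N) : Prop :=
  ∀ σ : Equiv.Perm (Fin N),
    (fun X : Conf N => val ψ (X ∘ σ)) =ᵐ[lebesgueBox Λ N] fun X => statChar fermi σ * val ψ X

/-- The unit vector in configuration space in the direction of the `k`-th coordinate of the
`i`-th particle. -/
noncomputable def dir {N : ℕ} (i : Fin N) (k : Fin 3) : Conf N :=
  Pi.single i (EuclideanSpace.single k 1)

/-- Test functions on the open set `Λ^N`. -/
def IsTest (Λ : Set E3) (N : ℕ) (f : Conf N → ℝ) : Prop :=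
  ContDiff ℝ ∞ f ∧ HasCompactSupport f ∧ tsupport f ⊆ box Λ N

/-- The partial derivative of `f` in the `k`-th coordinate of the `i`-th particle. -/
noncomputable def partialDeriv {N : ℕ} (i : Fin N) (k : Fin 3) (f : Conf N → ℝ) (X : Conf N) : ℝ :=
  fderiv ℝ f X (dir i k)

/-- The pairing of a function with a real function, `∫_{Λ^N} f g`. -/
noncomputable def pairing {Λ : Set E3} {N : ℕ} (f : Conf N → ℝ) (g : L2 Λ N) : ℂ :=
  ∫ X, (f X : ℂ) * val g X ∂(lebesgueBox Λ N)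

/-- `G` is the weak gradient of `ψ` in the open set `Λ^N`, and it is square integrable;
so `ψ ∈ H¹(Λ^N)`. -/
def IsWeakGradient {Λ : Set E3} {N : ℕ} (ψ : L2 Λ N) (G : Fin N → Fin 3 → L2 Λ N) : Prop :=
  ∀ (i : Fin N) (k : Fin 3) (f : Conf N → ℝ), IsTest Λ N f →
    pairing (partialDeriv i k f) ψ = -pairing f (G i k)

/-- The kinetic energy `½ ∫ |G|²`. -/
noncomputable def kinetic {Λ : Set E3} {N : ℕ} (G : Fin N → Fin 3 → L2 Λ N) : ℝ :=
  1 / 2 * ∑ i, ∑ k, ‖G i k‖ ^ 2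

/-- The density `U |ψ|²`. -/
noncomputable def potentialDensity (ρ : ℝ) {Λ : Set E3} {N : ℕ} (ψ : L2 Λ N) (X : Conf N) : ℝ :=
  potential ρ Λ N X * ‖val ψ X‖ ^ 2

/-- `ψ` is in the form domain of `H^N_Λ` and `e` is the value of the quadratic form:
`e = ½ ∫ |∇ψ|² + ∫ U |ψ|²`. -/
def IsEnergy (ρ : ℝ) (fermi : Bool) {Λ : Set E3} {N : ℕ} (ψ : L2 Λ N) (e : ℝ) : Prop :=
  HasStatistics fermi ψ ∧ Integrable (potentialDensity ρ ψ) (lebesgueBox Λ N) ∧
  ∃ G : Fin N → Fin 3 → L2 Λ N, IsWeakGradient ψ G ∧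
    e = kinetic G + ∫ X, potentialDensity ρ ψ X ∂(lebesgueBox Λ N)

/-- The quadratic form of `H^N_Λ` on the subspace of given statistics, `⊤` outside the form
domain. -/
noncomputable def energy (ρ : ℝ) (fermi : Bool) {Λ : Set E3} {N : ℕ} (ψ : L2 Λ N) : EReal :=
  ⨅ (e : ℝ) (_ : IsEnergy ρ fermi ψ e), (e : EReal)

/-- `ψ` is a unit vector in `V`. -/
def IsUnitVector {Λ : Set E3} {N : ℕ} (V : Subspace Λ N) (ψ : L2 Λ N) : Prop :=
  ψ ∈ V ∧ ‖ψ‖ = 1

/-- The maximal energy of a unit vector in `V`. -/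
noncomputable def maxEnergy (ρ : ℝ) (fermi : Bool) {Λ : Set E3} {N : ℕ} (V : Subspace Λ N) :
    EReal :=
  ⨆ (ψ : L2 Λ N) (_ : IsUnitVector V ψ), energy ρ fermi ψ

/-- The min-max values of `H^N_Λ` on the subspace of given statistics: the infimum over
`(k+1)`-dimensional subspaces of the maximal energy of a unit vector. -/
noncomputable def eigenvalue (ρ : ℝ) (fermi : Bool) (Λ : Set E3) (N : ℕ) (k : ℕ) : EReal :=
  ⨅ (V : Subspace Λ N) (_ : dimension V = k + 1), maxEnergy ρ fermi V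

/-- `Tr exp(-β H^N_Λ)` as the sum over the min-max values. -/
noncomputable def partitionFunction (β ρ : ℝ) (fermi : Bool) (Λ : Set E3) (N : ℕ) : ENNReal :=
  ∑' k : ℕ, EReal.exp (-((β : EReal) * eigenvalue ρ fermi Λ N k))

/-- `g^N(Λ) = |Λ|⁻¹ ln Tr exp(-β H^N_Λ)` -/
noncomputable def gNeumann (β ρ : ℝ) (fermi : Bool) (Λ : Set E3) (N : ℕ) : EReal :=
  ENNReal.log (partitionFunction β ρ fermi Λ N) / (vol Λ : EReal)

/-- Lipschitz boundary: near each boundary point `x` the set lies, in suitable Cartesian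
coordinates, strictly below the graph of a Lipschitz function `h` of the two coordinates
orthogonal to a unit vector `e`. -/
def LipschitzBoundary (Λ : Set E3) : Prop :=
  ∀ x ∈ frontier Λ, ∃ (e : E3) (h : E3 → ℝ) (K : NNReal) (r : ℝ), ‖e‖ = 1 ∧ 0 < r ∧
    LipschitzWith K h ∧ (∀ (y : E3) (t : ℝ), h (y + t • e) = h y) ∧
    ∀ y ∈ Metric.ball x r, (y ∈ Λ ↔ inner ℝ y e < h y)

/-- The points of `Λ` within distance `h` of the boundary. -/
def layer (Λ : Set E3) (h : ℝ) : Set E3 := {x | x ∈ Λ ∧ ∃ y ∈ frontier Λ, dist x y ≤ h}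

/-- `Λ` lies in a ball `B` with `|Λ| ≥ δ |B|`. -/
def FillsBall (δ : ℝ) (Λ : Set E3) : Prop :=
  ∃ (c : E3) (r : ℝ), Λ ⊆ Metric.ball c r ∧ δ * vol (Metric.ball c r) ≤ vol Λ

/-- Regular sequences of domains. -/
structure RegularSequence (ρ : ℝ) (Λ : ℕ → Set E3) : Prop where
  isOpen : ∀ j, IsOpen (Λ j)
  isBounded : ∀ j, Bornology.IsBounded (Λ j)
  lipschitz : ∀ j, LipschitzBoundary (Λ j)
  neutral : ∀ j : ℕ, ρ * vol (Λ j) = j
  vanHove : ∀ h : ℝ, 0 < h →
    Tendsto (fun j => vol (layer (Λ j) h) / vol (Λ j)) atTop (𝓝 0)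
  ball : ∃ δ : ℝ, 0 < δ ∧ ∀ j, FillsBall δ (Λ j)

end Pool.Agent.H8.Jellium
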