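import Pool.Agent.H8.Jellium.Construct

/-!
# The Neumann functional diverges along a regular sequence
-/

set_option autoImplicit false

open MeasureTheory Filter Topology Set Metric

namespace Pool.Agent.H8.Jellium

/-- the energy bound in the domain number `j` -/
noncomputable def Cb (ρ : ℝ) (j : ℕ) : ℝ :=
  (j : ℝ) ^ 2 * (1 / (2 * (j : ℝ)))⁻¹ + 1 / 2 * ρ ^ 2 * (j / ρ * (j / ρ + kap))

/-- number of rooms per cluster -/
noncomputable def Mj (ρ : ℝ) (j : ℕ) : ℕ := ⌈Real.exp (j * (1 + Cb ρ j))⌉₊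

lemma Cb_nonneg {ρ : ℝ} (hρ : 0 < ρ) (j : ℕ) : 0 ≤ Cb ρ j := by
  unfold Cb
  have := kap_nonneg
  positivity

lemma Mj_pos (ρ : ℝ) (j : ℕ) : 0 < Mj ρ j := by
  unfold Mj
  exact Nat.ceil_pos.2 (Real.exp_pos _)

lemma log_Mj (ρ : ℝ) (j : ℕ) : j * (1 + Cb ρ j) ≤ Real.log (Mj ρ j) := by
  rw [Real.le_log_iff_exp_le (by exact_mod_cast Mj_pos ρ j)]
  exact Nat.le_ceil _

/-- the regular sequence -/
noncomputable def seq (ρ : ℝ) (j : ℕ) : Set E3 := if j = 0 then ∅ else dom ρ j (Mj ρ j)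

lemma seq_zero (ρ : ℝ) : seq ρ 0 = ∅ := by simp [seq]

lemma seq_pos (ρ : ℝ) {j : ℕ} (hj : 0 < j) : seq ρ j = dom ρ j (Mj ρ j) := by
  simp [seq, hj.ne']

lemma seq_regular {ρ : ℝ} (hρ : 0 < ρ) : RegularSequence ρ (seq ρ) where
  isOpen j := by
    rcases Nat.eq_zero_or_pos j with rfl | hj
    · rw [seq_zero]; exact isOpen_empty
    · rw [seq_pos ρ hj]; exact isOpen_dom
  isBounded j := by
    rcases Nat.eq_zero_or_pos j with rfl | hj
    · rw [seq_zero]; exact Bornology.isBounded_empty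
    · rw [seq_pos ρ hj]; exact isBounded_dom
  lipschitz j := by
    rcases Nat.eq_zero_or_pos j with rfl | hj
    · rw [seq_zero]
      intro x hx
      simp at hx
    · rw [seq_pos ρ hj]; exact dom_lipschitz hρ hj (Mj_pos ρ j)
  neutral j := by
    unfold vol
    rcases Nat.eq_zero_or_pos j with rfl | hj
    · rw [seq_zero]; simp
    · rw [seq_pos ρ hj, dom_volume hρ hj (Mj_pos ρ j)]
      field_simp
  vanHove h hh := by
    have hom := om_pos
    -- the bound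
    have h1 : ∀ j : ℕ, 0 < j → (volume {x ∈ seq ρ j | ∃ y ∈ frontier (seq ρ j), dist x y ≤ h}).toReal
        / (volume (seq ρ j)).toReal ≤ (1 / 16) * (1 / (j : ℝ))
          + 3 * h * (1 / ((j : ℝ) / (2 * ρ * om)) ^ (1 / 3 : ℝ)) := by
      intro j hj
      have hj' : (0 : ℝ) < j := by exact_mod_cast hj
      rw [seq_pos ρ hj]
      have h2 := layer_volume hρ hj (Mj_pos ρ j) hh
      have h3 := dom_volume hρ hj (Mj_pos ρ j)
      have h4 := Rad_cube hρ hj (Mj_pos ρ j)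
      have h5 := Rad_ge hρ hj (Mj_pos ρ j)
      have h6 := Rad_pos hρ hj (Mj_pos ρ j)
      have h7 := small_volume_nonneg hρ hj (Mj_pos ρ j)
      set R := Rad ρ j (Mj ρ j) with hR
      rw [h3]
      have h8 : R ^ 3 * om ≤ j / ρ := by rw [h4]; linarith
      have h9 : 0 < ((j : ℝ) / (2 * ρ * om)) ^ (1 / 3 : ℝ) := by positivity
      calc (volume {x ∈ dom ρ j (Mj ρ j) | ∃ y ∈ frontier (dom ρ j (Mj ρ j)), dist x y ≤ h}).toReal
            / (j / ρ) ≤ (1 / (16 * ρ) + 3 * R ^ 2 * h * om) / (j / ρ) := by gcongr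
        _ = (1 / 16) * (1 / (j : ℝ)) + 3 * h * ((R ^ 2 * om) / (j / ρ)) := by field_simp
        _ ≤ (1 / 16) * (1 / (j : ℝ)) + 3 * h * ((R ^ 2 * om) / (R ^ 3 * om)) := by gcongr
        _ = (1 / 16) * (1 / (j : ℝ)) + 3 * h * (1 / R) := by field_simp
        _ ≤ _ := by gcongr
    have h2 : Tendsto (fun j : ℕ => (1 / 16) * (1 / (j : ℝ))
          + 3 * h * (1 / ((j : ℝ) / (2 * ρ * om)) ^ (1 / 3 : ℝ))) atTop (𝓝 0) := by
      have h3 : Tendsto (fun j : ℕ => (1 / 16) * (1 / (j : ℝ))) atTop (𝓝 ((1 / 16) * 0)) :=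
        (tendsto_one_div_atTop_nhds_zero_nat).const_mul _
      have h4 : Tendsto (fun j : ℕ => ((j : ℝ) / (2 * ρ * om)) ^ (1 / 3 : ℝ)) atTop atTop := by
        have h5 : Tendsto (fun j : ℕ => (j : ℝ) / (2 * ρ * om)) atTop atTop :=
          tendsto_natCast_atTop_atTop.atTop_div_const (by positivity)
        exact (tendsto_rpow_atTop (by norm_num)).comp h5
      have h5 : Tendsto (fun j : ℕ => 3 * h * (1 / ((j : ℝ) / (2 * ρ * om)) ^ (1 / 3 : ℝ))) atTop
          (𝓝 (3 * h * 0)) := by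
        apply Tendsto.const_mul
        have h6 : Tendsto (fun j : ℕ => (((j : ℝ) / (2 * ρ * om)) ^ (1 / 3 : ℝ))⁻¹) atTop (𝓝 0) :=
          h4.inv_tendsto_atTop
        simpa only [one_div] using h6
      have := h3.add h5
      simpa using this
    refine squeeze_zero' (Eventually.of_forall fun j => by positivity) ?_ h2
    filter_upwards [eventually_gt_atTop 0] with j hj
    exact h1 j hj
  ball := by
    have hom := om_pos
    set R0 : ℝ := (1 / (2 * ρ * om)) ^ (1 / 3 : ℝ) with hR0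
    have hR0pos : 0 < R0 := by positivity
    refine ⟨(R0 / (R0 + 3)) ^ 3, by positivity, fun j => ?_⟩
    rcases Nat.eq_zero_or_pos j with rfl | hj
    · refine ⟨0, 0, ?_, ?_⟩
      · rw [seq_zero]; exact empty_subset _
      · unfold vol
        rw [seq_zero]; simp
    · rw [seq_pos ρ hj]
      have hR := Rad_pos hρ hj (Mj_pos ρ j)
      refine ⟨0, Rad ρ j (Mj ρ j) + 3, dom_sub_ball hρ hj (Mj_pos ρ j), ?_⟩
      unfold vol
      rw [real_ball _ (by linarith), dom_volume hρ hj (Mj_pos ρ j)]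
      have h4 := Rad_cube hρ hj (Mj_pos ρ j)
      have h7 := small_volume_nonneg hρ hj (Mj_pos ρ j)
      have h5 : R0 ≤ Rad ρ j (Mj ρ j) := by
        refine le_trans ?_ (Rad_ge hρ hj (Mj_pos ρ j))
        have hj' : (1 : ℝ) ≤ j := by exact_mod_cast hj
        rw [hR0]
        gcongr
      set R := Rad ρ j (Mj ρ j) with hRdef
      have h8 : R0 / (R0 + 3) ≤ R / (R + 3) := by
        rw [div_le_div_iff₀ (by positivity) (by positivity)]
        nlinarith
      calc (R0 / (R0 + 3)) ^ 3 * ((R + 3) ^ 3 * om) ≤ (R / (R + 3)) ^ 3 * ((R + 3) ^ 3 * om) := by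
            gcongr
        _ = R ^ 3 * om := by field_simp
        _ ≤ j / ρ := by rw [h4]; linarith

lemma gNeumann_ge {ρ β : ℝ} (hρ : 0 < ρ) (hβ : 0 < β) (fermi : Bool) {j : ℕ} (hj : 0 < j) :
    ((ρ * (j * (1 + Cb ρ j) - β * Cb ρ j / j) : ℝ) : EReal)
      ≤ gNeumann β ρ fermi (seq ρ j) j := by
  have hj' : (0 : ℝ) < j := by exact_mod_cast hj
  have hM := Mj_pos ρ j
  have hM' : (0 : ℝ) < Mj ρ j := by exact_mod_cast hM
  rw [seq_pos ρ hj]
  have hvol := dom_volume hρ hj hM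
  have hfin : volume (dom ρ j (Mj ρ j)) ≠ ⊤ := isBounded_dom.measure_lt_top.ne
  have hsep : ∀ m σ, ∀ X ∈ piece (room ρ j (Mj ρ j)) m σ, ∀ k k', k ≠ k' →
      1 / (2 * (j : ℝ)) ≤ ‖X k - X k'‖ := fun m σ X hX => piece_separated hρ hj hM hX
  have hC : ∀ m σ, ∀ X ∈ piece (room ρ j (Mj ρ j)) m σ,
      potential ρ (dom ρ j (Mj ρ j)) j X ≤ Cb ρ j := by
    intro m σ X hX
    have h := potential_le hfin hρ (d := 1 / (2 * (j : ℝ))) (by positivity) (hsep m σ X hX)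
    rw [hvol] at h
    exact h
  have hC' := fun m σ X (hX : X ∈ piece (room ρ j (Mj ρ j)) m σ) =>
    abs_potential_le hfin hρ (d := 1 / (2 * (j : ℝ))) (by positivity) (hsep m σ X hX)
  have h1 := partitionFunction_ge (β := β) fermi isOpen_dom isBounded_dom hβ
    (rooms_dom hρ hj hM) hC hC'
  have hcard : (Fintype.card (Fin j → Fin (Mj ρ j)) : ℝ) = (Mj ρ j : ℝ) ^ j := by
    simp
  rw [hcard] at h1
  unfold gNeumann vol
  rw [hvol]
  have hpos : 0 < (Mj ρ j : ℝ) ^ j * Real.exp (-(β * Cb ρ j)) := by positivity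
  have h2 := ENNReal.log_monotone h1
  rw [ENNReal.log_ofReal_of_pos hpos] at h2
  have h3 : Real.log ((Mj ρ j : ℝ) ^ j * Real.exp (-(β * Cb ρ j)))
      = j * Real.log (Mj ρ j) - β * Cb ρ j := by
    rw [Real.log_mul (by positivity) (Real.exp_pos _).ne', Real.log_exp, Real.log_pow]
    ring
  rw [h3] at h2
  have h4 : ((ρ * (j * (1 + Cb ρ j) - β * Cb ρ j / j) : ℝ) : EReal)
      ≤ ((j * Real.log (Mj ρ j) - β * Cb ρ j : ℝ) : EReal) / ((j / ρ : ℝ) : EReal) := by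
    rw [← EReal.coe_div, EReal.coe_le_coe_iff]
    have h5 := log_Mj ρ j
    have h6 : (j * Real.log (Mj ρ j) - β * Cb ρ j) / (j / ρ)
        = ρ * (Real.log (Mj ρ j) - β * Cb ρ j / j) := by field_simp
    rw [h6]
    gcongr
  refine h4.trans ?_
  exact EReal.div_le_div_right_of_nonneg (by exact_mod_cast (by positivity : (0 : ℝ) ≤ j / ρ)) h2

theorem tendsto_gNeumann {ρ β : ℝ} (hρ : 0 < ρ) (hβ : 0 < β) (fermi : Bool) :
    Tendsto (fun j : ℕ => gNeumann β ρ fermi (seq ρ j) j) atTop (𝓝 ⊤) := by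
  rw [EReal.tendsto_nhds_top_iff_real]
  intro x
  filter_upwards [eventually_gt_atTop 0, eventually_ge_atTop ⌈β⌉₊,
    eventually_gt_atTop ⌈x / ρ⌉₊] with j hj0 hjβ hjx
  refine lt_of_lt_of_le ?_ (gNeumann_ge hρ hβ fermi hj0)
  rw [EReal.coe_lt_coe_iff]
  have hj1 : (1 : ℝ) ≤ j := by exact_mod_cast hj0
  have hj' : (0 : ℝ) < j := by linarith
  have h1 : β ≤ j := Nat.ceil_le.1 hjβ
  have h2 : x / ρ < j := lt_of_le_of_lt (Nat.le_ceil _) (by exact_mod_cast hjx)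
  have hC := Cb_nonneg hρ j
  have h3 : β * Cb ρ j / j ≤ j * Cb ρ j := by
    rw [div_le_iff₀ hj']
    nlinarith [mul_nonneg hj'.le hC]
  have h4 : x < ρ * j := by
    rw [div_lt_iff₀ hρ] at h2
    linarith
  calc x < ρ * j := h4
    _ ≤ ρ * (j * (1 + Cb ρ j) - β * Cb ρ j / j) := by
        apply mul_le_mul_of_nonneg_left _ hρ.le
        nlinarith

theorem main (ρ : ℝ) (hρ : 0 < ρ) :
    ∃ Λ : ℕ → Set E3, RegularSequence ρ Λ ∧ ∀ β : ℝ, 0 < β → ∀ fermi : Bool,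
      Tendsto (fun j : ℕ => gNeumann β ρ fermi (Λ j) j) atTop (𝓝 ⊤) ∧
      ∀ g : ℝ, ¬ Tendsto (fun j : ℕ => gNeumann β ρ fermi (Λ j) j) atTop (𝓝 (g : EReal)) := by
  refine ⟨seq ρ, seq_regular hρ, fun β hβ fermi => ⟨tendsto_gNeumann hρ hβ fermi, fun g hg => ?_⟩⟩
  exact EReal.coe_ne_top g (tendsto_nhds_unique hg (tendsto_gNeumann hρ hβ fermi))

end Pool.Agent.H8.Jellium
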