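import Pool.Agent.H8.Jellium.Trace

/-!
# Bounds for the jellium potential on well separated configurations
-/

set_option autoImplicit false

open MeasureTheory Filter Topology Set Metric

namespace Pool.Agent.H8.Jellium

/-- the singular part of the Coulomb kernel -/
noncomputable def ker (z : E3) : ℝ := (ball (0 : E3) 1).indicator (fun z => ‖z‖⁻¹) z

lemma ker_nonneg (z : E3) : 0 ≤ ker z := by
  unfold ker
  apply indicator_nonneg
  intro z _
  positivity

lemma integrable_ker : Integrable ker := by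
  unfold ker
  rw [integrable_indicator_iff measurableSet_ball]
  have h := integrableOn_fun_norm_addHaar (E := E3) volume (f := fun y : ℝ => y⁻¹) (r := 1)
  rw [h]
  have h2 : IntegrableOn (fun y : ℝ => y) (Ioo 0 1) :=
    (continuous_id.integrableOn_Icc).mono_set Ioo_subset_Icc_self
  refine h2.congr_fun (fun y hy => ?_) measurableSet_Ioo
  have : (y : ℝ) ≠ 0 := hy.1.ne'
  simp only [finrank_euclideanSpace, Fintype.card_fin, smul_eq_mul]
  field_simp

/-- the constant `∫_{|z|<1} |z|⁻¹ dz` -/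
noncomputable def kap : ℝ := ∫ z, ker z

lemma kap_nonneg : 0 ≤ kap := integral_nonneg ker_nonneg

lemma inv_norm_le (x y : E3) : ‖x - y‖⁻¹ ≤ 1 + ker (x - y) := by
  by_cases h : x - y ∈ ball (0 : E3) 1
  · unfold ker
    rw [indicator_of_mem h]
    linarith
  · have h1 := ker_nonneg (x - y)
    rw [mem_ball_zero_iff, not_lt] at h
    have h2 : ‖x - y‖⁻¹ ≤ 1 := inv_le_one_of_one_le₀ h
    linarith

section

variable {Λ : Set E3}

lemma phi_nonneg (Λ : Set E3) (x : E3) : 0 ≤ phi Λ x :=
  integral_nonneg fun y => by positivity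

lemma phi_le (hfin : volume Λ ≠ ⊤) (x : E3) : phi Λ x ≤ (volume Λ).toReal + kap := by
  have hf : IsFiniteMeasure ((volume : Measure E3).restrict Λ) :=
    ⟨by rw [Measure.restrict_apply_univ]; exact hfin.lt_top⟩
  have h1 : Integrable (fun y => ker (x - y)) := integrable_ker.comp_sub_left x
  have h2 : IntegrableOn (fun y => 1 + ker (x - y)) Λ :=
    (integrable_const (1 : ℝ)).add h1.restrict
  have h3 : IntegrableOn (fun y => ‖x - y‖⁻¹) Λ := by
    refine Integrable.mono' h2 ?_ (Eventually.of_forall fun y => ?_)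
    · have : Measurable (fun y : E3 => ‖x - y‖⁻¹) := by fun_prop
      exact this.aestronglyMeasurable
    · rw [Real.norm_eq_abs, abs_of_nonneg (by positivity)]
      exact inv_norm_le x y
  unfold phi
  calc ∫ y in Λ, ‖x - y‖⁻¹ ≤ ∫ y in Λ, (1 + ker (x - y)) :=
        integral_mono h3 h2 (fun y => inv_norm_le x y)
    _ = (∫ _y in Λ, (1 : ℝ)) + ∫ y in Λ, ker (x - y) :=
        integral_add (integrable_const _) h1.restrict
    _ ≤ (volume Λ).toReal + kap := by
        apply add_le_add
        · rw [setIntegral_const]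
          simp [Measure.real]
        · calc ∫ y in Λ, ker (x - y) ≤ ∫ y, ker (x - y) :=
                setIntegral_le_integral h1 (Eventually.of_forall fun y => ker_nonneg _)
            _ = kap := integral_sub_left_eq_self ker volume x

lemma integral_phi_le (hfin : volume Λ ≠ ⊤) :
    ∫ x in Λ, phi Λ x ≤ (volume Λ).toReal * ((volume Λ).toReal + kap) := by
  have hf : IsFiniteMeasure ((volume : Measure E3).restrict Λ) :=
    ⟨by rw [Measure.restrict_apply_univ]; exact hfin.lt_top⟩
  have h1 : Integrable (phi Λ) (volume.restrict Λ) := by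
    refine Integrable.of_bound (C := (volume Λ).toReal + kap)
      (measurable_phi Λ).aestronglyMeasurable (Eventually.of_forall fun x => ?_)
    rw [Real.norm_eq_abs, abs_of_nonneg (phi_nonneg Λ x)]
    exact phi_le hfin x
  calc ∫ x in Λ, phi Λ x ≤ ∫ _x in Λ, ((volume Λ).toReal + kap) :=
        integral_mono h1 (integrable_const _) (fun x => phi_le hfin x)
    _ = _ := by
        rw [setIntegral_const]
        simp [Measure.real]

lemma pair_sum_nonneg {N : ℕ} (X : Conf N) :
    0 ≤ ∑ i, ∑ j ∈ Finset.univ.filter (fun j => i < j), ‖X i - X j‖⁻¹ :=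
  Finset.sum_nonneg fun i _ => Finset.sum_nonneg fun j _ => by positivity

lemma pair_sum_le {N : ℕ} {d : ℝ} (hd : 0 < d) {X : Conf N}
    (hX : ∀ i j, i ≠ j → d ≤ ‖X i - X j‖) :
    ∑ i, ∑ j ∈ Finset.univ.filter (fun j => i < j), ‖X i - X j‖⁻¹ ≤ (N : ℝ) ^ 2 * d⁻¹ := by
  calc ∑ i, ∑ j ∈ Finset.univ.filter (fun j => i < j), ‖X i - X j‖⁻¹
      ≤ ∑ _i : Fin N, ∑ _j : Fin N, d⁻¹ := by
        apply Finset.sum_le_sum
        intro i _
        calc ∑ j ∈ Finset.univ.filter (fun j => i < j), ‖X i - X j‖⁻¹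
            ≤ ∑ j ∈ Finset.univ.filter (fun j => i < j), d⁻¹ := by
              apply Finset.sum_le_sum
              intro j hj
              have : i ≠ j := (Finset.mem_filter.1 hj).2.ne
              exact inv_anti₀ hd (hX i j this)
          _ ≤ ∑ _j : Fin N, d⁻¹ := by
              apply Finset.sum_le_sum_of_subset_of_nonneg (Finset.filter_subset _ _)
              intro j _ _
              positivity
    _ = _ := by
        simp only [Finset.sum_const, Finset.card_univ, Fintype.card_fin, nsmul_eq_mul]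
        ring

/-- upper bound for the potential of a well separated configuration -/
lemma potential_le (hfin : volume Λ ≠ ⊤) {ρ d : ℝ} (hρ : 0 < ρ) (hd : 0 < d) {N : ℕ} {X : Conf N}
    (hX : ∀ i j, i ≠ j → d ≤ ‖X i - X j‖) :
    potential ρ Λ N X ≤ (N : ℝ) ^ 2 * d⁻¹
      + 1 / 2 * ρ ^ 2 * ((volume Λ).toReal * ((volume Λ).toReal + kap)) := by
  unfold potential
  have h1 := pair_sum_le hd hX
  have h2 : 0 ≤ ρ * ∑ i, phi Λ (X i) :=
    mul_nonneg hρ.le (Finset.sum_nonneg fun i _ => phi_nonneg Λ _)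
  have h3 := integral_phi_le hfin
  have h4 : 1 / 2 * ρ ^ 2 * ∫ x in Λ, phi Λ x ≤
      1 / 2 * ρ ^ 2 * ((volume Λ).toReal * ((volume Λ).toReal + kap)) :=
    mul_le_mul_of_nonneg_left h3 (by positivity)
  linarith

lemma abs_potential_le (hfin : volume Λ ≠ ⊤) {ρ d : ℝ} (hρ : 0 < ρ) (hd : 0 < d) {N : ℕ}
    {X : Conf N} (hX : ∀ i j, i ≠ j → d ≤ ‖X i - X j‖) :
    |potential ρ Λ N X| ≤ (N : ℝ) ^ 2 * d⁻¹
      + 1 / 2 * ρ ^ 2 * ((volume Λ).toReal * ((volume Λ).toReal + kap))
      + ρ * (N * ((volume Λ).toReal + kap)) := by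
  have h0 := potential_le hfin hρ hd hX
  have hV : 0 ≤ (volume Λ).toReal := ENNReal.toReal_nonneg
  have hk := kap_nonneg
  rw [abs_le]
  constructor
  · unfold potential
    have h1 := pair_sum_nonneg X
    have h2 : ρ * ∑ i, phi Λ (X i) ≤ ρ * (N * ((volume Λ).toReal + kap)) := by
      apply mul_le_mul_of_nonneg_left _ hρ.le
      calc ∑ i, phi Λ (X i) ≤ ∑ _i : Fin N, ((volume Λ).toReal + kap) :=
            Finset.sum_le_sum fun i _ => phi_le hfin _
        _ = _ := by simp; ring
    have h3 : 0 ≤ ∫ x in Λ, phi Λ x := integral_nonneg fun x => phi_nonneg Λ x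
    have h4 : 0 ≤ 1 / 2 * ρ ^ 2 * ∫ x in Λ, phi Λ x := by positivity
    have h5 : 0 ≤ 1 / 2 * ρ ^ 2 * ((volume Λ).toReal * ((volume Λ).toReal + kap)) := by positivity
    have h6 : 0 ≤ (N : ℝ) ^ 2 * d⁻¹ := by positivity
    linarith
  · have h2 : 0 ≤ ρ * (N * ((volume Λ).toReal + kap)) := by positivity
    linarith

end

end Pool.Agent.H8.Jellium
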