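import Pool.Agent.H8.Jellium.Defs

/-!
# Many rooms: a lower bound for the Neumann partition function
-/

set_option autoImplicit false

open MeasureTheory Filter Topology Set
open scoped ContDiff

namespace Pool.Agent.H8.Jellium

/-! ### A clopen piece does not contribute a gradient -/

lemma integral_fderiv_eq_zero {E : Type} [NormedAddCommGroup E] [NormedSpace ℝ E]
    [MeasurableSpace E] [BorelSpace E] [FiniteDimensional ℝ E] (μ : Measure E)
    [μ.IsAddHaarMeasure] {f : E → ℝ} (hf : ContDiff ℝ ∞ f) (hc : HasCompactSupport f) (v : E) :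
    ∫ x, fderiv ℝ f x v ∂μ = 0 := by
  have hd : Continuous (fun x => fderiv ℝ f x v) :=
    (hf.continuous_fderiv (by simp)).clm_apply continuous_const
  have hcd : HasCompactSupport (fun x => fderiv ℝ f x v) := by
    have h1 := hc.fderiv (𝕜 := ℝ)
    exact h1.comp_left (g := fun (L : E →L[ℝ] ℝ) => L v) (by simp)
  have h := integral_mul_fderiv_eq_neg_fderiv_mul_of_integrable (μ := μ) (𝕜 := ℝ)
    (f := fun _ => (1 : ℝ)) (g := f) (v := v) (by simp)
    (by simpa using hd.integrable_of_hasCompactSupport hcd)
    (by simpa using hf.continuous.integrable_of_hasCompactSupport hc)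
    (fun x _ => differentiableAt_const _) (fun x _ => hf.differentiable (by simp) x)
  simpa using h

lemma integral_fderiv_clopen {E : Type} [NormedAddCommGroup E] [NormedSpace ℝ E]
    [MeasurableSpace E] [BorelSpace E] [FiniteDimensional ℝ E] (μ : Measure E)
    [μ.IsAddHaarMeasure] {Ω P : Set E} (hP : IsOpen P) (hQ : IsOpen (Ω \ P))
    {f : E → ℝ} (hf : ContDiff ℝ ∞ f) (hc : HasCompactSupport f) (hs : tsupport f ⊆ Ω) (v : E) :
    ∫ x in P, fderiv ℝ f x v ∂μ = 0 := by
  classical
  -- local behaviour of the cut-off function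
  have hloc : ∀ x, (x ∈ P ∧ P.indicator f =ᶠ[𝓝 x] f) ∨
      (x ∉ P ∧ P.indicator f =ᶠ[𝓝 x] fun _ => 0) := by
    intro x
    by_cases hx : x ∈ P
    · left
      refine ⟨hx, ?_⟩
      filter_upwards [hP.mem_nhds hx] with y hy
      exact indicator_of_mem hy f
    · right
      refine ⟨hx, ?_⟩
      by_cases hxΩ : x ∈ Ω
      · filter_upwards [hQ.mem_nhds ⟨hxΩ, hx⟩] with y hy
        exact indicator_of_notMem hy.2 f
      · have : x ∉ tsupport f := fun h => hxΩ (hs h)
        have h0 := notMem_tsupport_iff_eventuallyEq.1 this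
        filter_upwards [h0] with y hy
        by_cases hyP : y ∈ P
        · rw [indicator_of_mem hyP, hy]; rfl
        · exact indicator_of_notMem hyP f
  have hg : ContDiff ℝ ∞ (P.indicator f) := by
    rw [contDiff_iff_contDiffAt]
    intro x
    rcases hloc x with ⟨_, h⟩ | ⟨_, h⟩
    · exact hf.contDiffAt.congr_of_eventuallyEq h
    · exact contDiffAt_const.congr_of_eventuallyEq h
  have hgc : HasCompactSupport (P.indicator f) := by
    refine hc.mono ?_
    intro x hx
    rw [Function.mem_support] at hx ⊢
    intro h0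
    apply hx
    by_cases hxP : x ∈ P
    · rw [indicator_of_mem hxP, h0]
    · exact indicator_of_notMem hxP f
  have h := integral_fderiv_eq_zero μ hg hgc v
  rw [← h, ← integral_indicator hP.measurableSet]
  congr 1
  ext x
  rcases hloc x with ⟨hx, h⟩ | ⟨hx, h⟩
  · rw [indicator_of_mem hx, h.fderiv_eq]
  · rw [indicator_of_notMem hx, h.fderiv_eq]
    simp

/-! ### Rooms -/

/-- A family of tuples of rooms. -/
structure Rooms (Λ : Set E3) {N : ℕ} {J : Type} (b : J → Fin N → Set E3) : Prop where
  sub : ∀ m i, b m i ⊆ Λ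
  isOpen : ∀ m i, IsOpen (b m i)
  compl : ∀ m i, IsOpen (Λ \ b m i)
  nonempty : ∀ m i, (b m i).Nonempty
  disj : ∀ m i m' i', i ≠ i' → Disjoint (b m i) (b m' i')
  sep : ∀ m m', m ≠ m' → ∃ i, Disjoint (b m i) (b m' i)

variable {Λ : Set E3} {N : ℕ} {J : Type}

/-- the set of configurations with particle `σ i` in room `b m i` -/
def piece (b : J → Fin N → Set E3) (m : J) (σ : Equiv.Perm (Fin N)) : Set (Conf N) :=
  {X | ∀ i, X (σ i) ∈ b m i}

lemma isOpen_box (h : IsOpen Λ) (N : ℕ) : IsOpen (box Λ N) := by
  have : box Λ N = ⋂ i, (fun X : Conf N => X i) ⁻¹' Λ := by ext X; simp [box]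
  rw [this]
  exact isOpen_iInter_of_finite fun i => h.preimage (continuous_apply i)

lemma box_lt_top (hb : Bornology.IsBounded Λ) (N : ℕ) : volume (box Λ N) < ⊤ := by
  have : box Λ N = Set.pi univ (fun _ : Fin N => Λ) := by ext X; simp [box]
  rw [this, volume_pi_pi]
  exact ENNReal.prod_lt_top fun i _ => hb.measure_lt_top

section

variable {b : J → Fin N → Set E3} (hR : Rooms Λ b)
include hR

lemma isOpen_piece (m : J) (σ : Equiv.Perm (Fin N)) : IsOpen (piece b m σ) := by
  have : piece b m σ = ⋂ i, (fun X : Conf N => X (σ i)) ⁻¹' (b m i) := by ext X; simp [piece]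
  rw [this]
  exact isOpen_iInter_of_finite fun i => (hR.isOpen m i).preimage (continuous_apply (σ i))

lemma piece_sub (m : J) (σ : Equiv.Perm (Fin N)) : piece b m σ ⊆ box Λ N := by
  intro X hX i
  have := hX (σ.symm i)
  rw [Equiv.apply_symm_apply] at this
  exact hR.sub _ _ this

lemma isOpen_compl_piece (hΛ : IsOpen Λ) (m : J) (σ : Equiv.Perm (Fin N)) :
    IsOpen (box Λ N \ piece b m σ) := by
  have : box Λ N \ piece b m σ =
      box Λ N ∩ ⋃ i, (fun X : Conf N => X (σ i)) ⁻¹' (Λ \ b m i) := by
    ext X
    simp only [piece, Set.mem_sdiff, mem_ofPred_eq, not_forall, mem_inter_iff, mem_iUnion, mem_preimage]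
    constructor
    · rintro ⟨h1, i, hi⟩
      exact ⟨h1, i, h1 _, hi⟩
    · rintro ⟨h1, i, _, hi⟩
      exact ⟨h1, i, hi⟩
  rw [this]
  exact (isOpen_box hΛ N).inter
    (isOpen_iUnion fun i => (hR.compl m i).preimage (continuous_apply (σ i)))

lemma piece_nonempty (m : J) (σ : Equiv.Perm (Fin N)) : (piece b m σ).Nonempty := by
  choose f hf using hR.nonempty m
  refine ⟨fun k => f (σ.symm k), fun i => ?_⟩
  simp only [Equiv.symm_apply_apply]
  exact hf i

lemma piece_unique {m m' : J} {σ σ' : Equiv.Perm (Fin N)} {X : Conf N}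
    (h : X ∈ piece b m σ) (h' : X ∈ piece b m' σ') : m = m' ∧ σ = σ' := by
  have hσ : σ = σ' := by
    by_contra hne
    obtain ⟨i, hi⟩ : ∃ i, σ i ≠ σ' i := by
      by_contra hcon
      push Not at hcon
      exact hne (Equiv.ext hcon)
    have h1 := h i
    have h2 := h' (σ'.symm (σ i))
    rw [Equiv.apply_symm_apply] at h2
    have hne' : i ≠ σ'.symm (σ i) := by
      intro hcon
      apply hi
      have := congrArg σ' hcon
      rw [Equiv.apply_symm_apply] at this
      exact this.symm
    exact (Set.disjoint_left.1 (hR.disj m i m' _ hne')) h1 h2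
  refine ⟨?_, hσ⟩
  by_contra hne
  obtain ⟨i, hi⟩ := hR.sep m m' hne
  subst hσ
  exact (Set.disjoint_left.1 hi) (h i) (h' i)

end

/-- the wave function with coefficients `c` -/
noncomputable def wave [Fintype J] (fermi : Bool) (b : J → Fin N → Set E3) (c : J → ℂ)
    (X : Conf N) : ℂ :=
  ∑ m, ∑ σ : Equiv.Perm (Fin N), (piece b m σ).indicator (fun _ => c m * statChar fermi σ) X

section

variable [Fintype J] {b : J → Fin N → Set E3} (hR : Rooms Λ b) (fermi : Bool)

include hR in
lemma wave_eq {c : J → ℂ} {m : J} {σ : Equiv.Perm (Fin N)} {X : Conf N} (h : X ∈ piece b m σ) :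
    wave fermi b c X = c m * statChar fermi σ := by
  classical
  unfold wave
  rw [Finset.sum_eq_single m, Finset.sum_eq_single σ]
  · exact indicator_of_mem h _
  · intro τ _ hτ
    apply indicator_of_notMem
    intro h'
    exact hτ (piece_unique hR h' h).2
  · simp
  · intro m' _ hm'
    apply Finset.sum_eq_zero
    intro τ _
    apply indicator_of_notMem
    intro h'
    exact hm' (piece_unique hR h' h).1
  · simp

lemma wave_eq_zero {c : J → ℂ} {X : Conf N} (h : ∀ m σ, X ∉ piece b m σ) :
    wave fermi b c X = 0 := by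
  unfold wave
  apply Finset.sum_eq_zero
  intro m _
  apply Finset.sum_eq_zero
  intro σ _
  exact indicator_of_notMem (h m σ) _

lemma norm_statChar {N : ℕ} (fermi : Bool) (σ : Equiv.Perm (Fin N)) : ‖statChar fermi σ‖ = 1 := by
  unfold statChar
  split
  · rcases Int.units_eq_one_or (Equiv.Perm.sign σ) with h | h <;> rw [h] <;> simp
  · simp

lemma statChar_mul {N : ℕ} (fermi : Bool) (σ τ : Equiv.Perm (Fin N)) :
    statChar fermi (σ * τ) = statChar fermi σ * statChar fermi τ := by
  unfold statChar
  split
  · rw [Equiv.Perm.sign_mul]; push_cast; rfl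
  · simp

lemma statChar_mul_self {N : ℕ} (fermi : Bool) (σ : Equiv.Perm (Fin N)) :
    statChar fermi σ * statChar fermi σ = 1 := by
  unfold statChar
  split
  · rcases Int.units_eq_one_or (Equiv.Perm.sign σ) with h | h <;> rw [h] <;> simp
  · simp

lemma wave_comp (c : J → ℂ) (τ : Equiv.Perm (Fin N)) (X : Conf N) :
    wave fermi b c (X ∘ τ) = statChar fermi τ * wave fermi b c X := by
  unfold wave
  rw [Finset.mul_sum]
  apply Finset.sum_congr rfl
  intro m _
  rw [Finset.mul_sum]
  rw [← Equiv.sum_comp (Equiv.mulLeft τ⁻¹)]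
  apply Finset.sum_congr rfl
  intro σ _
  have h1 : X ∘ τ ∈ piece b m ((Equiv.mulLeft τ⁻¹) σ) ↔ X ∈ piece b m σ := by
    unfold piece
    simp
  by_cases h : X ∈ piece b m σ
  · rw [indicator_of_mem h, indicator_of_mem (h1.2 h)]
    have h2 : statChar fermi ((Equiv.mulLeft τ⁻¹) σ) = statChar fermi τ * statChar fermi σ := by
      rw [Equiv.coe_mulLeft, statChar_mul]
      congr 1
      have h3 := statChar_mul fermi τ τ⁻¹
      rw [mul_inv_cancel] at h3
      have h4 : statChar fermi (1 : Equiv.Perm (Fin N)) = 1 := by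
        unfold statChar; split <;> simp
      rw [h4] at h3
      have h5 := statChar_mul_self fermi τ
      have h6 : statChar fermi τ ≠ 0 := by
        intro h0
        rw [h0] at h5
        simp at h5
      exact mul_left_cancel₀ h6 (h3.symm.trans h5.symm)
    rw [h2]
    ring
  · rw [indicator_of_notMem h, indicator_of_notMem (fun h' => h (h1.1 h')), mul_zero]

include hR in
lemma measurable_wave (c : J → ℂ) : Measurable (wave fermi b c) := by
  unfold wave
  apply Finset.measurable_fun_sum
  intro m _
  apply Finset.measurable_fun_sum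
  intro σ _
  exact measurable_const.indicator (isOpen_piece hR m σ).measurableSet

include hR in
lemma norm_wave_le (c : J → ℂ) (X : Conf N) : ‖wave fermi b c X‖ ≤ ∑ m, ‖c m‖ := by
  by_cases h : ∃ m σ, X ∈ piece b m σ
  · obtain ⟨m, σ, h⟩ := h
    rw [wave_eq hR fermi h, norm_mul, norm_statChar, mul_one]
    exact Finset.single_le_sum (f := fun m => ‖c m‖) (fun i _ => norm_nonneg _) (Finset.mem_univ m)
  · push Not at h
    rw [wave_eq_zero fermi h, norm_zero]
    exact Finset.sum_nonneg fun i _ => norm_nonneg _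

include hR in
lemma memLp_wave (hb : Bornology.IsBounded Λ) (c : J → ℂ) :
    MemLp (wave fermi b c) 2 ((volume : Measure (Conf N)).restrict (box Λ N)) := by
  have : IsFiniteMeasure ((volume : Measure (Conf N)).restrict (box Λ N)) :=
    ⟨by rw [Measure.restrict_apply_univ]; exact box_lt_top hb N⟩
  exact MemLp.of_bound (measurable_wave hR fermi c).aestronglyMeasurable _
    (Eventually.of_forall (norm_wave_le hR fermi c))

/-- the linear map from coefficients to wave functions -/
noncomputable def waveMap (hb : Bornology.IsBounded Λ) : (J → ℂ) →ₗ[ℂ] L2 Λ N where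
  toFun c := (memLp_wave hR fermi hb c).toLp
  map_add' c c' := by
    rw [← MemLp.toLp_add]
    apply MemLp.toLp_congr
    refine Eventually.of_forall fun X => ?_
    simp only [Pi.add_apply]
    unfold wave
    rw [← Finset.sum_add_distrib]
    apply Finset.sum_congr rfl
    intro m _
    rw [← Finset.sum_add_distrib]
    apply Finset.sum_congr rfl
    intro σ _
    by_cases h : X ∈ piece b m σ
    · simp only [indicator_of_mem h, Pi.add_apply]; ring
    · simp only [indicator_of_notMem h, add_zero]
  map_smul' a c := by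
    rw [RingHom.id_apply, ← MemLp.toLp_const_smul]
    apply MemLp.toLp_congr
    refine Eventually.of_forall fun X => ?_
    simp only [Pi.smul_apply, smul_eq_mul]
    unfold wave
    rw [Finset.mul_sum]
    apply Finset.sum_congr rfl
    intro m _
    rw [Finset.mul_sum]
    apply Finset.sum_congr rfl
    intro σ _
    by_cases h : X ∈ piece b m σ
    · simp only [indicator_of_mem h, Pi.smul_apply, smul_eq_mul]; ring
    · simp only [indicator_of_notMem h, mul_zero]

lemma coe_waveMap (hb : Bornology.IsBounded Λ) (c : J → ℂ) :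
    (waveMap hR fermi hb c : Conf N → ℂ) =ᵐ[volume.restrict (box Λ N)] wave fermi b c :=
  MemLp.coeFn_toLp (memLp_wave hR fermi hb c)

lemma waveMap_injective (hb : Bornology.IsBounded Λ) :
    Function.Injective (waveMap hR fermi hb) := by
  rw [injective_iff_map_eq_zero]
  intro c hc
  ext m
  have h1 := coe_waveMap hR fermi hb c
  rw [hc] at h1
  have h2 : wave fermi b c =ᵐ[volume.restrict (box Λ N)] 0 := h1.symm.trans (Lp.coeFn_zero _ _ _)
  have h3 : ∀ᵐ X ∂((volume : Measure (Conf N)).restrict (piece b m 1)), wave fermi b c X = 0 :=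
    ae_restrict_of_ae_restrict_of_subset (piece_sub hR m 1) h2
  by_contra hne
  have h4 : ∀ᵐ X ∂((volume : Measure (Conf N)).restrict (piece b m 1)), False := by
    have h5 : ∀ᵐ X ∂((volume : Measure (Conf N)).restrict (piece b m 1)), X ∈ piece b m 1 :=
      ae_restrict_mem (isOpen_piece hR m 1).measurableSet
    filter_upwards [h3, h5] with X hX hX'
    rw [wave_eq hR fermi hX'] at hX
    have h6 : statChar fermi (1 : Equiv.Perm (Fin N)) ≠ 0 := by
      rw [← norm_ne_zero_iff, norm_statChar]; exact one_ne_zero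
    exact hne ((mul_eq_zero.1 hX).resolve_right h6)
  rw [eventually_false_iff_eq_bot, ae_eq_bot, Measure.restrict_eq_zero] at h4
  exact ((isOpen_piece hR m 1).measure_pos volume (piece_nonempty hR m 1)).ne' h4

lemma waveMap_statistics (hΛ : IsOpen Λ) (hb : Bornology.IsBounded Λ) (c : J → ℂ) :
    HasStatistics fermi (waveMap hR fermi hb c) := by
  intro τ
  have h1 := coe_waveMap hR fermi hb c
  -- permutation of the particles preserves the measure
  have hmp : MeasurePreserving (fun X : Conf N => X ∘ τ)
      ((volume : Measure (Conf N)).restrict (box Λ N))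
      ((volume : Measure (Conf N)).restrict (box Λ N)) := by
    have h2 := volume_measurePreserving_piCongrLeft (fun _ : Fin N => E3) τ.symm
    have h3 : (fun X : Conf N => X ∘ τ) = MeasurableEquiv.piCongrLeft (fun _ : Fin N => E3) τ.symm := by
      ext X i
      rw [MeasurableEquiv.coe_piCongrLeft]
      have := Equiv.piCongrLeft_apply_apply (fun _ : Fin N => E3) τ.symm X (τ i)
      rw [Equiv.symm_apply_apply] at this
      rw [this]
      rfl
    rw [← h3] at h2
    have h4 := h2.restrict_preimage (isOpen_box hΛ N).measurableSet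
    have h5 : (fun X : Conf N => X ∘ τ) ⁻¹' (box Λ N) = box Λ N := by
      ext X
      simp only [box, mem_preimage, mem_ofPred_eq, Function.comp_apply]
      constructor
      · intro h i
        have := h (τ.symm i)
        rwa [Equiv.apply_symm_apply] at this
      · intro h i
        exact h _
    rwa [h5] at h4
  have h2 := hmp.quasiMeasurePreserving.ae_eq_comp h1
  filter_upwards [h1, h2] with X hX hX'
  simp only [Function.comp_apply] at hX'
  unfold val
  rw [hX, hX', wave_comp]

lemma waveMap_gradient (hΛ : IsOpen Λ) (hb : Bornology.IsBounded Λ) (c : J → ℂ) :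
    IsWeakGradient (waveMap hR fermi hb c) (fun _ _ => 0) := by
  intro i k f hft
  obtain ⟨hf, hfc, hfs⟩ := hft
  unfold pairing partialDeriv val lebesgueBox
  have h1 := coe_waveMap hR fermi hb c
  have h0 : ∫ X in box Λ N, (f X : ℂ) * ((0 : L2 Λ N) : Conf N → ℂ) X = 0 := by
    have h0 : (fun X => (f X : ℂ) * ((0 : L2 Λ N) : Conf N → ℂ) X)
        =ᵐ[volume.restrict (box Λ N)] fun _ => 0 := by
      filter_upwards [Lp.coeFn_zero ℂ 2 ((volume : Measure (Conf N)).restrict (box Λ N))] with X hX
      rw [hX]; simp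
    rw [integral_congr_ae h0]; simp
  rw [h0, neg_zero]
  have h2 : (fun X => (fderiv ℝ f X (dir i k) : ℂ) * (waveMap hR fermi hb c : Conf N → ℂ) X)
      =ᵐ[volume.restrict (box Λ N)] fun X => (fderiv ℝ f X (dir i k) : ℂ) * wave fermi b c X := by
    filter_upwards [h1] with X hX
    rw [hX]
  rw [integral_congr_ae h2]
  have hd : Continuous (fun X => fderiv ℝ f X (dir i k)) :=
    (hf.continuous_fderiv (by simp)).clm_apply continuous_const
  have hcd : HasCompactSupport (fun X => fderiv ℝ f X (dir i k)) := by
    have h1 := hfc.fderiv (𝕜 := ℝ)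
    exact h1.comp_left (g := fun (L : Conf N →L[ℝ] ℝ) => L (dir i k)) (by simp)
  have hint : Integrable (fun X => (fderiv ℝ f X (dir i k) : ℂ)) :=
    (hd.integrable_of_hasCompactSupport hcd).ofReal
  have h3 : (fun X => (fderiv ℝ f X (dir i k) : ℂ) * wave fermi b c X) = fun X =>
      ∑ m, ∑ σ : Equiv.Perm (Fin N), (piece b m σ).indicator
        (fun X => (fderiv ℝ f X (dir i k) : ℂ) * (c m * statChar fermi σ)) X := by
    ext X
    unfold wave
    rw [Finset.mul_sum]
    apply Finset.sum_congr rfl
    intro m _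
    rw [Finset.mul_sum]
    apply Finset.sum_congr rfl
    intro σ _
    by_cases h : X ∈ piece b m σ
    · simp only [indicator_of_mem h]
    · simp only [indicator_of_notMem h, mul_zero]
  rw [h3]
  have hi : ∀ m (σ : Equiv.Perm (Fin N)), Integrable ((piece b m σ).indicator
      (fun X => (fderiv ℝ f X (dir i k) : ℂ) * (c m * statChar fermi σ)))
      ((volume : Measure (Conf N)).restrict (box Λ N)) := by
    intro m σ
    exact ((hint.mul_const _).restrict).indicator (isOpen_piece hR m σ).measurableSet
  rw [integral_finsetSum _ (fun m _ => integrable_finsetSum _ fun σ _ => hi m σ)]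
  apply Finset.sum_eq_zero
  intro m _
  rw [integral_finsetSum _ (fun σ _ => hi m σ)]
  apply Finset.sum_eq_zero
  intro σ _
  rw [integral_indicator (isOpen_piece hR m σ).measurableSet,
    Measure.restrict_restrict (isOpen_piece hR m σ).measurableSet,
    inter_eq_self_of_subset_left (piece_sub hR m σ), integral_mul_const, integral_complex_ofReal,
    integral_fderiv_clopen volume (isOpen_piece hR m σ)
      (isOpen_compl_piece hR hΛ m σ) hf hfc hfs]
  simp

end

end Pool.Agent.H8.Jellium
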