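import Pool.Agent.H8.Jellium.Rooms

/-!
# Many rooms: a lower bound for the Neumann partition function, II
-/

set_option autoImplicit false

open MeasureTheory Filter Topology Set
open scoped ContDiff

namespace Pool.Agent.H8.Jellium

variable {Λ : Set E3} {N : ℕ} {J : Type}

lemma measurable_phi (Λ : Set E3) : Measurable (phi Λ) := by
  have h : StronglyMeasurable (Function.uncurry fun x y : E3 => ‖x - y‖⁻¹) := by
    apply Measurable.stronglyMeasurable
    unfold Function.uncurry
    fun_prop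
  exact (StronglyMeasurable.integral_prod_right (ν := volume.restrict Λ) h).measurable

lemma measurable_potential (ρ : ℝ) (Λ : Set E3) (N : ℕ) : Measurable (potential ρ Λ N) := by
  unfold potential
  have h := measurable_phi Λ
  have h1 : ∀ i : Fin N, Measurable (fun X : Conf N => phi Λ (X i)) := fun i =>
    h.comp (measurable_pi_apply i)
  have h2 : Measurable (fun X : Conf N => ∑ i, phi Λ (X i)) :=
    Finset.measurable_fun_sum _ fun i _ => h1 i
  fun_prop

lemma L2_norm_sq (ψ : L2 Λ N) : ‖ψ‖ ^ 2 = ∫ X in box Λ N, ‖ψ X‖ ^ 2 := by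
  have h1 := inner_self_eq_norm_sq (𝕜 := ℂ) ψ
  rw [L2.inner_def] at h1
  have h2 : ∀ X, inner ℂ (ψ X) (ψ X) = ((‖ψ X‖ ^ 2 : ℝ) : ℂ) := by
    intro X
    rw [inner_self_eq_norm_sq_to_K]
    norm_cast
  simp_rw [h2] at h1
  rw [integral_complex_ofReal] at h1
  rw [← h1]
  exact (Complex.ofReal_re _).symm

section

variable [Fintype J] {b : J → Fin N → Set E3} (hR : Rooms Λ b) (fermi : Bool)

lemma waveMap_energy (hΛ : IsOpen Λ) (hb : Bornology.IsBounded Λ) {ρ C C' : ℝ}
    (hC : ∀ m σ, ∀ X ∈ piece b m σ, potential ρ Λ N X ≤ C)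
    (hC' : ∀ m σ, ∀ X ∈ piece b m σ, |potential ρ Λ N X| ≤ C') (c : J → ℂ)
    (hn : ‖waveMap hR fermi hb c‖ = 1) :
    energy ρ fermi (waveMap hR fermi hb c) ≤ (C : EReal) := by
  set ψ := waveMap hR fermi hb c with hψ
  have h1 := coe_waveMap hR fermi hb c
  rw [← hψ] at h1
  have hfin : IsFiniteMeasure ((volume : Measure (Conf N)).restrict (box Λ N)) :=
    ⟨by rw [Measure.restrict_apply_univ]; exact box_lt_top hb N⟩
  have hae : (fun X => potential ρ Λ N X * ‖ψ X‖ ^ 2) =ᵐ[volume.restrict (box Λ N)]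
      fun X => potential ρ Λ N X * ‖wave fermi b c X‖ ^ 2 := by
    filter_upwards [h1] with X hX
    rw [hX]
  have hmw := measurable_wave hR fermi c
  have hmp := measurable_potential ρ Λ N
  have hint : Integrable (fun X => potential ρ Λ N X * ‖wave fermi b c X‖ ^ 2)
      (volume.restrict (box Λ N)) := by
    refine Integrable.of_bound (C := max C' 0 * (∑ m, ‖c m‖) ^ 2) ?_
      (Eventually.of_forall fun X => ?_)
    · exact (hmp.mul (hmw.norm.pow_const 2)).aestronglyMeasurable
    · by_cases h : ∃ m σ, X ∈ piece b m σ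
      · obtain ⟨m, σ, h⟩ := h
        rw [Real.norm_eq_abs, abs_mul, abs_of_nonneg (sq_nonneg ‖wave fermi b c X‖)]
        apply mul_le_mul ((hC' m σ X h).trans (le_max_left _ _)) _ (sq_nonneg _) (le_max_right _ _)
        exact pow_le_pow_left₀ (norm_nonneg _) (norm_wave_le hR fermi c X) 2
      · push Not at h
        rw [wave_eq_zero fermi h]
        simp only [norm_zero, ne_eq, OfNat.ofNat_ne_zero, not_false_eq_true, zero_pow, mul_zero]
        positivity
  have hint2 : Integrable (fun X => potential ρ Λ N X * ‖ψ X‖ ^ 2)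
      (volume.restrict (box Λ N)) := hint.congr hae.symm
  have hE : IsEnergy ρ fermi ψ (∫ X in box Λ N, potential ρ Λ N X * ‖ψ X‖ ^ 2) := by
    refine ⟨waveMap_statistics hR fermi hΛ hb c, hint2, fun _ _ => 0,
      waveMap_gradient hR fermi hΛ hb c, ?_⟩
    unfold kinetic
    simp only [norm_zero, ne_eq, OfNat.ofNat_ne_zero, not_false_eq_true, zero_pow,
      Finset.sum_const_zero, mul_zero, zero_add]
    rfl
  unfold energy
  refine (iInf₂_le _ hE).trans ?_
  rw [EReal.coe_le_coe_iff]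
  have h2 : ∫ X in box Λ N, C * ‖ψ X‖ ^ 2 = C := by
    rw [integral_const_mul, ← L2_norm_sq, hn]; ring
  rw [← h2]
  have hint3 : Integrable (fun X => C * ‖ψ X‖ ^ 2) (volume.restrict (box Λ N)) := by
    have h3 : Integrable (fun X => ‖wave fermi b c X‖ ^ 2) (volume.restrict (box Λ N)) := by
      refine Integrable.of_bound (C := (∑ m, ‖c m‖) ^ 2) (hmw.norm.pow_const 2).aestronglyMeasurable
        (Eventually.of_forall fun X => ?_)
      rw [Real.norm_eq_abs, abs_of_nonneg (sq_nonneg _)]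
      exact pow_le_pow_left₀ (norm_nonneg _) (norm_wave_le hR fermi c X) 2
    have h4 : (fun X => ‖wave fermi b c X‖ ^ 2) =ᵐ[volume.restrict (box Λ N)]
        fun X => ‖ψ X‖ ^ 2 := by
      filter_upwards [h1] with X hX
      rw [hX]
    exact (h3.congr h4).const_mul C
  apply integral_mono_ae hint2 hint3
  filter_upwards [h1] with X hX
  rw [hX]
  by_cases h : ∃ m σ, X ∈ piece b m σ
  · obtain ⟨m, σ, h⟩ := h
    exact mul_le_mul_of_nonneg_right (hC m σ X h) (sq_nonneg _)
  · push Not at h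
    rw [wave_eq_zero fermi h]
    simp

lemma eigenvalue_le_aux (hΛ : IsOpen Λ) (hb : Bornology.IsBounded Λ) {ρ C C' : ℝ}
    (hR : Rooms Λ b)
    (hC : ∀ m σ, ∀ X ∈ piece b m σ, potential ρ Λ N X ≤ C)
    (hC' : ∀ m σ, ∀ X ∈ piece b m σ, |potential ρ Λ N X| ≤ C') {k : ℕ}
    (hk : Fintype.card J = k + 1) : eigenvalue ρ fermi Λ N k ≤ (C : EReal) := by
  unfold eigenvalue
  have hfr : Module.finrank ℂ (LinearMap.range (waveMap hR fermi hb)) = k + 1 := by
    rw [LinearMap.finrank_range_of_inj (waveMap_injective hR fermi hb), Module.finrank_pi, hk]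
  refine (iInf₂_le (LinearMap.range (waveMap hR fermi hb)) hfr).trans ?_
  refine iSup₂_le fun ψ hψ => ?_
  obtain ⟨⟨c, rfl⟩, hn⟩ := hψ
  exact waveMap_energy hR fermi hΛ hb hC hC' c hn

lemma eigenvalue_le (hΛ : IsOpen Λ) (hb : Bornology.IsBounded Λ) {ρ C C' : ℝ}
    (hR : Rooms Λ b)
    (hC : ∀ m σ, ∀ X ∈ piece b m σ, potential ρ Λ N X ≤ C)
    (hC' : ∀ m σ, ∀ X ∈ piece b m σ, |potential ρ Λ N X| ≤ C') {k : ℕ}
    (hk : k < Fintype.card J) : eigenvalue ρ fermi Λ N k ≤ (C : EReal) := by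
  classical
  -- restrict the family to `k+1` members
  let e : Fin (k + 1) → J := fun i =>
    (Fintype.equivFin J).symm (Fin.castLE hk i)
  have he : Function.Injective e := by
    intro i j hij
    have := (Fintype.equivFin J).symm.injective hij
    exact Fin.castLE_injective hk this
  have hR' : Rooms Λ (fun m => b (e m)) :=
    { sub := fun m i => hR.sub _ _
      isOpen := fun m i => hR.isOpen _ _
      compl := fun m i => hR.compl _ _
      nonempty := fun m i => hR.nonempty _ _
      disj := fun m i m' i' h => hR.disj _ _ _ _ h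
      sep := fun m m' h => hR.sep _ _ (fun h' => h (he h')) }
  exact eigenvalue_le_aux (b := fun m => b (e m)) fermi hΛ hb hR' (fun m σ X hX => hC (e m) σ X hX)
    (fun m σ X hX => hC' (e m) σ X hX) (by simp)

lemma partitionFunction_ge (hΛ : IsOpen Λ) (hb : Bornology.IsBounded Λ) {β ρ C C' : ℝ}
    (hβ : 0 < β) (hR : Rooms Λ b)
    (hC : ∀ m σ, ∀ X ∈ piece b m σ, potential ρ Λ N X ≤ C)
    (hC' : ∀ m σ, ∀ X ∈ piece b m σ, |potential ρ Λ N X| ≤ C') :
    ENNReal.ofReal (Fintype.card J * Real.exp (-(β * C))) ≤ partitionFunction β ρ fermi Λ N := by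
  have h1 : ∀ k ∈ Finset.range (Fintype.card J), ENNReal.ofReal (Real.exp (-(β * C))) ≤
      EReal.exp (-((β : EReal) * eigenvalue ρ fermi Λ N k)) := by
    intro k hk
    have h2 := eigenvalue_le fermi hΛ hb hR hC hC' (Finset.mem_range.1 hk)
    rw [← EReal.exp_coe]
    apply EReal.exp_monotone
    rw [EReal.coe_neg, EReal.coe_mul, EReal.neg_le_neg_iff]
    exact mul_le_mul_of_nonneg_left h2 (by exact_mod_cast hβ.le)
  calc ENNReal.ofReal (Fintype.card J * Real.exp (-(β * C)))
      = ∑ k ∈ Finset.range (Fintype.card J), ENNReal.ofReal (Real.exp (-(β * C))) := by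
        rw [Finset.sum_const, Finset.card_range, nsmul_eq_mul,
          ENNReal.ofReal_mul (Nat.cast_nonneg _), ENNReal.ofReal_natCast]
    _ ≤ ∑ k ∈ Finset.range (Fintype.card J),
          EReal.exp (-((β : EReal) * eigenvalue ρ fermi Λ N k)) := Finset.sum_le_sum h1
    _ ≤ _ := ENNReal.sum_le_tsum _

end

end Pool.Agent.H8.Jellium
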